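import Pool.Agent.Lib.MP_a9445a_lc.Mg.G113

/-! Meaning of the small procedures. -/

set_option autoImplicit false

open Finset

namespace Pool.Agent.MPa9445a.BE

/-- The vector of an array. -/
def fv (n : ℕ) (l : List ℤ) : Fin n → ℤ := fun v => gt l (v : ℕ)

/-- The matrix of an array. -/
def fm (n : ℕ) (l : List ℤ) : Matrix (Fin n) (Fin n) ℤ := fun u v => gt l ((u : ℕ) * n + v)

/-- The bilinear form of a matrix. -/
def bq {n : ℕ} (W : Matrix (Fin n) (Fin n) ℤ) (y z : Fin n → ℤ) : ℤ :=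
  ∑ u, ∑ v, W u v * y u * z v

/-- The matrix of the weights. -/
def wtm (n : ℕ) (M : List ℤ) : Matrix (Fin n) (Fin n) ℤ := fun u v => wt n M u v

private theorem B0_gt_tb (k : ℕ) (f : ℕ → ℤ) (i : ℕ) (h : i < k) : gt (tb k f) i = f i := by
  show (tb k f).getD i 0 = f i
  rw [getD_tb, if_pos h]

private theorem B0_div {n : ℕ} (u v : Fin n) : ((u : ℕ) * n + v) / n = u := by
  have hn : 0 < n := lt_of_le_of_lt (Nat.zero_le _) v.2
  rw [mul_comm, Nat.mul_add_div hn, Nat.div_eq_of_lt v.2, add_zero]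

private theorem B0_mod {n : ℕ} (u v : Fin n) : ((u : ℕ) * n + v) % n = v := by
  rw [mul_comm, Nat.mul_add_mod, Nat.mod_eq_of_lt v.2]

private theorem B0_lt {n : ℕ} (u v : Fin n) : (u : ℕ) * n + v < n * n := by
  have h1 := u.2
  have h2 := v.2
  have h3 : ((u : ℕ) + 1) * n ≤ n * n := Nat.mul_le_mul_right _ h1
  nlinarith

/-- PROOF. `Finset.sum_range`. -/
theorem sum_gt (n : ℕ) (x : List ℤ) : ∑ v ∈ range n, gt x v = ∑ v, fv n x v := by
  rw [Finset.sum_range]
  rfl

/-- PROOF. `getD_tb`. -/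
theorem fv_tb (n : ℕ) (f : ℕ → ℤ) (v : Fin n) : fv n (tb n f) v = f (v : ℕ) :=
  B0_gt_tb n f v v.2

/-- PROOF. `getD_tb`; `u * n + v < n * n`, `(u * n + v) / n = u`, `(u * n + v) % n = v`. -/
theorem fm_tb (n : ℕ) (f : ℕ → ℤ) (u v : Fin n) :
    fm n (tb (n * n) f) u v = f ((u : ℕ) * n + v) :=
  B0_gt_tb (n * n) f _ (B0_lt u v)

/-- PROOF. `fm_tb`, `Matrix.mul_apply`, `Finset.sum_range`. -/
theorem fm_mulL (n : ℕ) (X Y : List ℤ) : fm n (mulL n X Y) = fm n X * fm n Y := by
  ext u v
  rw [mulL, fm_tb, Matrix.mul_apply, B0_div, B0_mod, Finset.sum_range]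
  rfl

/-- PROOF. `Finset.sum_range`. -/
theorem qfL_eq (n : ℕ) (S x : List ℤ) : qfL n S x = qf (fm n S) (fv n x) := by
  rw [qfL, Finset.sum_range]
  refine Finset.sum_congr rfl fun u _ => ?_
  rw [Finset.sum_range]
  rfl

theorem ipL_eq (n : ℕ) (b x : List ℤ) : ipL n b x = lf (fv n b) (fv n x) := by
  rw [ipL, Finset.sum_range]
  rfl

theorem nsL_eq (n : ℕ) (S x' x : List ℤ) :
    nsL n S x' x = nsq ((fm n S).mulVec (fv n x' - fv n x)) := by
  rw [nsL, Finset.sum_range]
  refine Finset.sum_congr rfl fun u _ => ?_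
  rw [Finset.sum_range]
  rfl

theorem bil_eq (n : ℕ) (M y z : List ℤ) : bil n M y z = bq (wtm n M) (fv n y) (fv n z) := by
  rw [bil, Finset.sum_range]
  refine Finset.sum_congr rfl fun u _ => ?_
  rw [Finset.sum_range]
  rfl

theorem fv_lin (n : ℕ) (a : ℤ) (y : List ℤ) (b : ℤ) (z : List ℤ) :
    fv n (lin n a y b z) = fun v => a * fv n y v + b * fv n z v := by
  funext v
  rw [lin, fv_tb]
  rfl

private theorem B0_code_lt (n : ℕ) (p : ℕ → Prop) [DecidablePred p] :
    ∑ v ∈ range n, (if p v then 2 ^ v else 0) < 2 ^ n := by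
  induction n with
  | zero => simp
  | succ n ih =>
    rw [Finset.sum_range_succ, pow_succ]
    have h : (if p n then 2 ^ n else 0) ≤ 2 ^ n := by
      split_ifs
      · exact le_refl _
      · exact Nat.zero_le _
    omega

private theorem B0_bit (n : ℕ) (p : ℕ → Prop) [DecidablePred p] (i : ℕ) (hi : i < n) :
    bit (∑ v ∈ range n, (if p v then 2 ^ v else 0)) i = if p i then 1 else 0 := by
  induction n with
  | zero => omega
  | succ n ih =>
    rw [Finset.sum_range_succ, bit]
    have h2 : 0 < 2 ^ i := by positivity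
    rcases Nat.lt_succ_iff_lt_or_eq.1 hi with h | h
    · have h1 : (∑ v ∈ range n, (if p v then 2 ^ v else 0)) / 2 ^ i % 2 = if p i then 1 else 0 :=
        ih h
      by_cases hp : p n
      · rw [if_pos hp]
        obtain ⟨d, rfl⟩ : ∃ d, n = i + 1 + d := ⟨n - (i + 1), by omega⟩
        have h3 : (2 : ℕ) ^ (i + 1 + d) = 2 ^ i * (2 * 2 ^ d) := by ring
        rw [h3, Nat.add_mul_div_left _ _ h2, Nat.add_mul_mod_self_left]
        exact h1
      · rw [if_neg hp, add_zero]
        exact h1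
    · subst h
      have h3 := B0_code_lt i p
      by_cases hp : p i
      · rw [if_pos hp, if_pos hp]
        have h4 : (∑ v ∈ range i, (if p v then 2 ^ v else 0)) + 2 ^ i =
            (∑ v ∈ range i, (if p v then 2 ^ v else 0)) + 2 ^ i * 1 := by ring
        rw [h4, Nat.add_mul_div_left _ _ h2, Nat.div_eq_of_lt h3]
      · rw [if_neg hp, if_neg hp, add_zero, Nat.div_eq_of_lt h3]

/-- PROOF. Binary digits: `Nat.sum_...`, `code n x` is the sum of `2 ^ v` over the `v` with `x v = 1`; its digit `v` is `1` iff `x v = 1`. -/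
theorem vec_code {n : ℕ} {x : List ℤ} (h : ∀ v : Fin n, fv n x v = 1 ∨ fv n x v = -1) :
    fv n (vec n (code n x)) = fv n x := by
  funext v
  rw [vec, fv_tb]
  have h1 : bit (code n x) v = if gt x v = 1 then 1 else 0 :=
    B0_bit n (fun v => gt x v = 1) v v.2
  rw [h1]
  have h2 : fv n x v = gt x v := rfl
  rcases h v with h3 | h3
  · rw [if_pos (h2 ▸ h3), h3]
    norm_num
  · have h4 : ¬ gt x v = 1 := by
      rw [← h2, h3]
      norm_num
    rw [if_neg h4, h3]
    norm_num

theorem code_lt (n : ℕ) (x : List ℤ) : code n x < 2 ^ n :=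
  B0_code_lt n (fun v => gt x v = 1)

theorem vec_mem (n c : ℕ) : fv n (vec n c) ∈ Om (univ : Finset (Fin n)) := by
  rw [Om, Fintype.mem_piFinset]
  intro v
  rw [if_pos (mem_univ v), vec, fv_tb, bit]
  rcases Nat.mod_two_eq_zero_or_one (c / 2 ^ (v : ℕ)) with h | h
  · rw [h]
    norm_num
  · rw [h]
    norm_num

/-- Every sign vector has a code. PROOF. Take `code n (tb n ..)`. -/
theorem exists_code {n : ℕ} {x : Fin n → ℤ} (h : x ∈ Om (univ : Finset (Fin n))) :
    ∃ c < 2 ^ n, fv n (vec n c) = x := by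
  rw [Om, Fintype.mem_piFinset] at h
  have h1 : fv n (tb n fun v => if hv : v < n then x ⟨v, hv⟩ else 0) = x := by
    funext v
    rw [fv_tb, dif_pos v.2]
  refine ⟨code n (tb n fun v => if hv : v < n then x ⟨v, hv⟩ else 0), code_lt _ _, ?_⟩
  rw [vec_code, h1]
  intro v
  rw [h1]
  have h2 := h v
  rw [if_pos (mem_univ v)] at h2
  simpa using h2

/-- PROOF. Expand the sums; `W` is symmetric. -/
theorem bq_add {n : ℕ} {W : Matrix (Fin n) (Fin n) ℤ} (hW : ∀ u v, W u v = W v u)
    (y z : Fin n → ℤ) :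
    bq W (fun v => y v + z v) (fun v => y v + z v) = bq W y y + bq W z (fun v => 2 * y v + z v) := by
  have h1 : bq W y z = bq W z y := by
    unfold bq
    rw [Finset.sum_comm]
    refine Finset.sum_congr rfl fun u _ => Finset.sum_congr rfl fun v _ => ?_
    rw [hW v u]
    ring
  have h2 : bq W (fun v => y v + z v) (fun v => y v + z v) =
      bq W y y + bq W y z + bq W z y + bq W z z := by
    unfold bq
    simp only [← Finset.sum_add_distrib]
    refine Finset.sum_congr rfl fun u _ => Finset.sum_congr rfl fun v _ => ?_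
    ring
  have h3 : bq W z (fun v => 2 * y v + z v) = 2 * bq W z y + bq W z z := by
    unfold bq
    simp only [Finset.mul_sum, ← Finset.sum_add_distrib]
    refine Finset.sum_congr rfl fun u _ => Finset.sum_congr rfl fun v _ => ?_
    ring
  rw [h2, h3, h1]
  ring

/-- PROOF. Expand. -/
theorem bq_right {n : ℕ} (W : Matrix (Fin n) (Fin n) ℤ) (a b : ℤ) (y z z' : Fin n → ℤ) :
    bq W y (fun v => a * z v + b * z' v) = a * bq W y z + b * bq W y z' := by
  unfold bq
  simp only [Finset.mul_sum, ← Finset.sum_add_distrib]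
  refine Finset.sum_congr rfl fun u _ => Finset.sum_congr rfl fun v _ => ?_
  ring

end Pool.Agent.MPa9445a.BE
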