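import Pool.Agent.Lib.MP_a9445a_lc.Mg.G116

/-! The running time. -/

set_option autoImplicit false

open Finset

namespace Pool.Agent.MPa9445a.BE

private theorem B10_poly (k : ℕ) {r : ℝ} (hr : 1 < r) :
    ∃ C : ℝ, 0 ≤ C ∧ ∀ n : ℕ, (n : ℝ) ^ k ≤ C * r ^ n := by
  have h1 := (isLittleO_pow_const_const_pow_of_one_lt (R := ℝ) k hr).isBigO
  rw [Asymptotics.isBigO_nat_atTop_iff
    (fun x h => absurd h (pow_ne_zero _ (by linarith)))] at h1
  obtain ⟨C, hC⟩ := h1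
  refine ⟨|C|, abs_nonneg _, fun n => ?_⟩
  have h2 := hC n
  rw [Real.norm_of_nonneg (by positivity), Real.norm_of_nonneg (by positivity)] at h2
  exact h2.trans (mul_le_mul_of_nonneg_right (le_abs_self _) (by positivity))

private theorem B10_root {c : ℝ} (hc : 0 < c) : 1 < (2 : ℝ) ^ c :=
  Real.one_lt_rpow (by norm_num) hc

private theorem B10_root_pow (c : ℝ) (n : ℕ) : ((2 : ℝ) ^ c) ^ n = 2 ^ (c * n) := by
  rw [← Real.rpow_natCast, ← Real.rpow_mul (by norm_num)]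

private theorem B10_kn (P : Prm) (hm : 100 ≤ P.m) (n : ℕ) :
    (kn P n : ℝ) + 1 ≤ 2 ^ ((n : ℝ) / 3 - n / P.m + 6) := by
  have hm0 : (0 : ℝ) < P.m := by exact_mod_cast (by omega : 0 < P.m)
  have h1 : (1 : ℝ) ≤ kn P n := by
    unfold kn
    exact_mod_cast Nat.one_le_two_pow
  have h2 : (kn P n : ℝ) = 2 ^ (((n / 3 - n / P.m + 4 : ℕ)) : ℝ) := by
    unfold kn
    rw [Real.rpow_natCast]
    push_cast
    rfl
  have h3 : ((n / 3 - n / P.m + 4 : ℕ) : ℝ) ≤ (n : ℝ) / 3 - n / P.m + 5 := by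
    have h4 : n / P.m ≤ n / 3 :=
      (Nat.div_le_div_left hm (by norm_num)).trans (Nat.div_le_div_left (by norm_num) (by norm_num))
    rw [Nat.cast_add, Nat.cast_sub h4]
    have h5 : ((n / 3 : ℕ) : ℝ) ≤ (n : ℝ) / 3 := by
      have := @Nat.cast_div_le ℝ _ _ _ n 3
      exact_mod_cast this
    have h6 : (n : ℝ) / P.m < ((n / P.m : ℕ) : ℝ) + 1 := by
      rw [div_lt_iff₀ hm0]
      have h7 : n < (n / P.m + 1) * P.m := by
        rw [mul_comm]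
        exact Nat.lt_mul_div_succ n (by omega)
      exact_mod_cast h7
    push_cast
    linarith
  calc (kn P n : ℝ) + 1 ≤ 2 * kn P n := by linarith
    _ = 2 ^ ((((n / 3 - n / P.m + 4 : ℕ)) : ℝ) + 1) := by
        rw [h2, Real.rpow_add (by norm_num), Real.rpow_one]; ring
    _ ≤ _ := Real.rpow_le_rpow_of_exponent_le (by norm_num) (by linarith)

/-- PROOF. `n / 3 - n / m + 4 ≤ n / 3 - n / m + 5` (real numbers), so `kn + 1 ≤ 2 ^ (n / 3 - n / m + 6)` and `wm ≤ 2 · 2 ^ (9 n / b) 2 ^ (τ (n / 3 - n / m + 6))`; `τ ≥ 2`, `9 / b ≤ 1 / (2 m)`: at most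
`2 ^ (1 + 6 τ) 2 ^ (τ n / 3 - 3 n / (2 m))`; the polynomial is at most `C 2 ^ (n / (2 m))`. Finitely many `n < n₀`: larger constant. -/
theorem time_bound (P : Prm) (hm : 100 ≤ P.m) (hb : 18 * P.m ≤ P.b) (k : ℕ) {τ : ℝ}
    (hτ : 2 ≤ τ) : ∃ C : ℝ, ∀ (n : ℕ) (M : List ℤ),
      ((n : ℝ) + 2) ^ k * wf P τ (n, M) ≤ C * 2 ^ ((τ / 3 - 1 / P.m) * n) := by
  have hm0 : (0 : ℝ) < P.m := by exact_mod_cast (by omega : 0 < P.m)
  have hm1 : (100 : ℝ) ≤ P.m := by exact_mod_cast hm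
  have hb0 : (0 : ℝ) < P.b := by exact_mod_cast (by omega : 0 < P.b)
  have hb1 : 18 * (P.m : ℝ) ≤ P.b := by exact_mod_cast hb
  obtain ⟨C, hC0, hC⟩ := B10_poly k (B10_root (c := 1 / (2 * P.m)) (by positivity))
  set r : ℝ := (2 : ℝ) ^ (1 / (2 * (P.m : ℝ))) with hr
  have hexp : ∀ n : ℕ, (0 : ℝ) ≤ (τ / 3 - 1 / P.m) * n := by
    intro n
    apply mul_nonneg _ (Nat.cast_nonneg _)
    have : (1 : ℝ) / P.m ≤ 1 / 100 := one_div_le_one_div_of_le (by norm_num) hm1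
    linarith
  refine ⟨((P.n₀ : ℝ) + 2) ^ k * (2 ^ P.n₀ + 1) + C * r ^ 2 * 2 ^ (1 + 6 * τ), fun n M => ?_⟩
  rw [add_mul]
  by_cases hn : n < P.n₀
  · have h1 : wf P τ (n, M) = ((2 ^ n : ℕ) : ℝ) + 1 := by
      unfold wf
      rw [if_pos hn]
    rw [h1]
    have h2 : ((n : ℝ) + 2) ^ k * (((2 ^ n : ℕ) : ℝ) + 1) ≤
        ((P.n₀ : ℝ) + 2) ^ k * (2 ^ P.n₀ + 1) := by
      have h3 : (n : ℝ) ≤ P.n₀ := by exact_mod_cast hn.le
      refine mul_le_mul (pow_le_pow_left₀ (by positivity) (by linarith) k) ?_ (by positivity)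
        (by positivity)
      have h4 : (2 ^ n : ℕ) ≤ 2 ^ P.n₀ := Nat.pow_le_pow_right (by norm_num) hn.le
      have h5 : ((2 ^ n : ℕ) : ℝ) ≤ 2 ^ P.n₀ := by exact_mod_cast h4
      linarith
    have h6 : (1 : ℝ) ≤ 2 ^ ((τ / 3 - 1 / P.m) * n) := Real.one_le_rpow (by norm_num) (hexp n)
    have h7 : (0 : ℝ) ≤ C * r ^ 2 * 2 ^ (1 + 6 * τ) * 2 ^ ((τ / 3 - 1 / P.m) * n) := by positivity
    have h8 : ((P.n₀ : ℝ) + 2) ^ k * (2 ^ P.n₀ + 1) * 1 ≤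
        ((P.n₀ : ℝ) + 2) ^ k * (2 ^ P.n₀ + 1) * 2 ^ ((τ / 3 - 1 / P.m) * n) :=
      mul_le_mul_of_nonneg_left h6 (by positivity)
    linarith
  · have h1 : wf P τ (n, M) = wm P τ n := by
      unfold wf
      rw [if_neg hn]
    rw [h1]
    have h2 : wn P τ n ≤ 2 ^ (((n : ℝ) / 3 - n / P.m + 6) * τ) := by
      unfold wn
      rw [Real.rpow_mul (by norm_num)]
      exact Real.rpow_le_rpow (by positivity) (B10_kn P hm n) (by linarith)
    have h3 : ((2 ^ (n / P.b * 9) : ℕ) : ℝ) + 1 ≤ 2 ^ (1 + (n : ℝ) / (2 * P.m)) := by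
      have h4 : ((2 ^ (n / P.b * 9) : ℕ) : ℝ) ≤ 2 ^ ((n : ℝ) / (2 * P.m)) := by
        have h5 : (((n / P.b * 9 : ℕ)) : ℝ) ≤ (n : ℝ) / (2 * P.m) := by
          rw [Nat.cast_mul]
          have h6 : ((n / P.b : ℕ) : ℝ) ≤ (n : ℝ) / P.b := Nat.cast_div_le
          have h7 : (n : ℝ) / P.b ≤ n / (18 * P.m) :=
            div_le_div_of_nonneg_left (Nat.cast_nonneg _) (by positivity) hb1
          calc ((n / P.b : ℕ) : ℝ) * ((9 : ℕ) : ℝ) ≤ (n / (18 * P.m)) * 9 := by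
                push_cast
                linarith
            _ = (n : ℝ) / (2 * P.m) := by field_simp; ring
        calc ((2 ^ (n / P.b * 9) : ℕ) : ℝ) = 2 ^ (((n / P.b * 9 : ℕ)) : ℝ) := by
              rw [Real.rpow_natCast]; push_cast; rfl
          _ ≤ _ := Real.rpow_le_rpow_of_exponent_le (by norm_num) h5
      have h8 : (1 : ℝ) ≤ 2 ^ ((n : ℝ) / (2 * P.m)) :=
        Real.one_le_rpow (by norm_num) (by positivity)
      rw [Real.rpow_add (by norm_num), Real.rpow_one]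
      linarith
    have h4 : wm P τ n ≤ 2 ^ (1 + (n : ℝ) / (2 * P.m)) *
        2 ^ (((n : ℝ) / 3 - n / P.m + 6) * τ) := by
      unfold wm
      refine mul_le_mul h3 h2 ?_ (by positivity)
      exact le_trans zero_le_one (one_le_wn P n hτ)
    have h5 : ((n : ℝ) + 2) ^ k ≤ C * r ^ 2 * 2 ^ ((n : ℝ) / (2 * P.m)) := by
      have h6 := hC (n + 2)
      rw [pow_add, hr, B10_root_pow _ n] at h6
      push_cast at h6
      calc ((n : ℝ) + 2) ^ k ≤ _ := h6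
        _ = C * r ^ 2 * 2 ^ ((n : ℝ) / (2 * P.m)) := by
            rw [hr, show (1 / (2 * (P.m : ℝ)) * n) = (n : ℝ) / (2 * P.m) by ring]; ring
    have h9 : ((n : ℝ) + 2) ^ k * wm P τ n ≤ C * r ^ 2 * 2 ^ ((n : ℝ) / (2 * P.m)) *
        (2 ^ (1 + (n : ℝ) / (2 * P.m)) * 2 ^ (((n : ℝ) / 3 - n / P.m + 6) * τ)) :=
      mul_le_mul h5 h4 (le_trans zero_le_one (one_le_wm P n hτ)) (by positivity)
    have h10 : (2 : ℝ) ^ ((n : ℝ) / (2 * P.m)) *
        (2 ^ (1 + (n : ℝ) / (2 * P.m)) * 2 ^ (((n : ℝ) / 3 - n / P.m + 6) * τ)) ≤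
        2 ^ (1 + 6 * τ) * 2 ^ ((τ / 3 - 1 / P.m) * n) := by
      rw [← Real.rpow_add (by norm_num), ← Real.rpow_add (by norm_num),
        ← Real.rpow_add (by norm_num)]
      apply Real.rpow_le_rpow_of_exponent_le (by norm_num)
      have h11 : (n : ℝ) / (2 * P.m) = (n : ℝ) / P.m / 2 := by field_simp
      have h12 : (τ / 3 - 1 / (P.m : ℝ)) * n = τ * (n / 3) - n / P.m := by ring
      rw [h11, h12]
      have h13 : 0 ≤ (n : ℝ) / P.m := by positivity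
      nlinarith
    have h14 : (0 : ℝ) ≤ ((P.n₀ : ℝ) + 2) ^ k * (2 ^ P.n₀ + 1) *
        2 ^ ((τ / 3 - 1 / P.m) * n) := by positivity
    calc ((n : ℝ) + 2) ^ k * wm P τ n ≤ _ := h9
      _ = C * r ^ 2 * (2 ^ ((n : ℝ) / (2 * P.m)) *
        (2 ^ (1 + (n : ℝ) / (2 * P.m)) * 2 ^ (((n : ℝ) / 3 - n / P.m + 6) * τ))) := by ring
      _ ≤ C * r ^ 2 * (2 ^ (1 + 6 * τ) * 2 ^ ((τ / 3 - 1 / P.m) * n)) :=
          mul_le_mul_of_nonneg_left h10 (by positivity)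
      _ ≤ _ := by linarith

/-- PROOF. Exponentials beat polynomials. -/
theorem n4_bound (b : ℕ) (hb : 0 < b) : ∃ n₀ : ℕ, ∀ n : ℕ, n₀ ≤ n → 4 * n ^ 4 + 8 < 2 ^ (n / b) := by
  have hb0 : (0 : ℝ) < b := by exact_mod_cast hb
  have hr := B10_root (c := 1 / b) (by positivity)
  have h1 := isLittleO_pow_const_const_pow_of_one_lt (R := ℝ) 4 hr
  have h2 := h1.bound (c := 1 / 48) (by norm_num)
  rw [Filter.eventually_atTop] at h2
  obtain ⟨n₁, hn₁⟩ := h2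
  refine ⟨n₁ + 1, fun n hn => ?_⟩
  have h3 := hn₁ n (by omega)
  rw [Real.norm_of_nonneg (by positivity), Real.norm_of_nonneg (by positivity),
    B10_root_pow] at h3
  have h4 : (2 : ℝ) ^ (1 / (b : ℝ) * n) ≤ 2 * ((2 ^ (n / b) : ℕ) : ℝ) := by
    have h5 : 1 / (b : ℝ) * n ≤ ((n / b : ℕ) : ℝ) + 1 := by
      rw [one_div, inv_mul_le_iff₀ hb0]
      have h7 : n < b * (n / b + 1) := Nat.lt_mul_div_succ n hb
      have h8 : (n : ℝ) < b * (((n / b : ℕ) : ℝ) + 1) := by exact_mod_cast h7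
      exact h8.le
    calc (2 : ℝ) ^ (1 / (b : ℝ) * n) ≤ 2 ^ (((n / b : ℕ) : ℝ) + 1) :=
          Real.rpow_le_rpow_of_exponent_le (by norm_num) h5
      _ = 2 * ((2 ^ (n / b) : ℕ) : ℝ) := by
          rw [Real.rpow_add (by norm_num), Real.rpow_one, Real.rpow_natCast]
          push_cast
          ring
  have h5 : (1 : ℝ) ≤ (n : ℝ) ^ 4 := by
    have : (1 : ℝ) ≤ n := by exact_mod_cast (by omega : 1 ≤ n)
    exact one_le_pow₀ this
  have h6 : 4 * (n : ℝ) ^ 4 + 8 < ((2 ^ (n / b) : ℕ) : ℝ) := by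
    linarith
  exact_mod_cast h6

end Pool.Agent.MPa9445a.BE
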