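import Pool.Agent.Lib.MP_a9445a_lc.Mg.G113

/-! The number of sparse codes. -/

set_option autoImplicit false

open Finset

namespace Pool.Agent.MPa9445a.BE

/-- the number of nonzero digits in base `4` -/
private def B7b_nz (k c : ℕ) : ℕ := ∑ i ∈ range k, (if c / 4 ^ i % 4 = 0 then 0 else 1)

private theorem B7b_split (N : ℕ) (f : ℕ → ℝ) :
    ∑ c ∈ range (N * 4), f c = ∑ d ∈ range N, (f (4 * d) + f (4 * d + 1) + f (4 * d + 2) +
      f (4 * d + 3)) := by
  induction N with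
  | zero => simp
  | succ N ih =>
    rw [sum_range_succ, ← ih, show (N + 1) * 4 = N * 4 + 1 + 1 + 1 + 1 by ring, sum_range_succ,
      sum_range_succ, sum_range_succ, sum_range_succ, show N * 4 = 4 * N by ring]
    ring

private theorem B7b_nz_succ (k d r : ℕ) (hr : r < 4) :
    B7b_nz (k + 1) (4 * d + r) = B7b_nz k d + (if r = 0 then 0 else 1) := by
  unfold B7b_nz
  rw [sum_range_succ']
  have h0 : (4 * d + r) / 4 ^ 0 % 4 = r := by
    rw [pow_zero, Nat.div_one]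
    omega
  rw [h0]
  congr 1
  apply sum_congr rfl
  intro i _
  have h1 : (4 * d + r) / 4 ^ (i + 1) = d / 4 ^ i := by
    rw [pow_succ', ← Nat.div_div_eq_div_mul]
    congr 1
    omega
  rw [h1]

private theorem B7b_sum (y : ℝ) (k : ℕ) :
    ∑ c ∈ range (4 ^ k), y ^ B7b_nz k c = (1 + 3 * y) ^ k := by
  induction k with
  | zero => simp [B7b_nz]
  | succ k ih =>
    rw [pow_succ, B7b_split]
    have : ∀ d ∈ range (4 ^ k), y ^ B7b_nz (k + 1) (4 * d) + y ^ B7b_nz (k + 1) (4 * d + 1) +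
        y ^ B7b_nz (k + 1) (4 * d + 2) + y ^ B7b_nz (k + 1) (4 * d + 3) =
        y ^ B7b_nz k d * (1 + 3 * y) := by
      intro d _
      have h0 : B7b_nz (k + 1) (4 * d) = B7b_nz k d := by
        have := B7b_nz_succ k d 0 (by norm_num)
        simpa using this
      have h1 : B7b_nz (k + 1) (4 * d + 1) = B7b_nz k d + 1 := by
        have := B7b_nz_succ k d 1 (by norm_num)
        simpa using this
      have h2 : B7b_nz (k + 1) (4 * d + 2) = B7b_nz k d + 1 := by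
        have := B7b_nz_succ k d 2 (by norm_num)
        simpa using this
      have h3 : B7b_nz (k + 1) (4 * d + 3) = B7b_nz k d + 1 := by
        have := B7b_nz_succ k d 3 (by norm_num)
        simpa using this
      rw [h0, h1, h2, h3, pow_succ]
      ring
    rw [sum_congr rfl this, ← sum_mul, ih, pow_succ]

private theorem B7b_len (n h : ℕ) : (spl n h).length =
    ((range (4 ^ (n / 4 + 1))).filter fun c => B7b_nz (n / 4 + 1) c ≤ h).card := by
  unfold spl flt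
  rw [List.length_map]
  rfl

/-- PROOF. Let `k = n / 4 + 1`. The number of the codes `c < 4 ^ k` with at most `h` nonzero digits is at most `M ^ h ∑ c, M ^ (- number of nonzero digits) = M ^ h (1 + 3 / M) ^ k` (the sum over
all codes is a product: induction on `k`). -/
theorem spl_length (n h M : ℕ) (hM : 1 ≤ M) :
    ((spl n h).length : ℝ) ≤ (M : ℝ) ^ h * (1 + 3 / M) ^ (n / 4 + 1) := by
  rw [B7b_len, card_eq_sum_ones]
  push_cast
  set k := n / 4 + 1 with hk
  have hM0 : (0 : ℝ) < M := by exact_mod_cast hM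
  have hM1 : (1 : ℝ) ≤ M := by exact_mod_cast hM
  have h1 : ∀ c ∈ (range (4 ^ k)).filter (fun c => B7b_nz k c ≤ h),
      (1 : ℝ) ≤ (M : ℝ) ^ h * ((M : ℝ)⁻¹) ^ B7b_nz k c := by
    intro c hc
    have hc2 := (mem_filter.mp hc).2
    rw [inv_pow, ← div_eq_mul_inv, one_le_div (pow_pos hM0 _)]
    exact pow_le_pow_right₀ hM1 hc2
  calc ∑ c ∈ (range (4 ^ k)).filter (fun c => B7b_nz k c ≤ h), (1 : ℝ)
      ≤ ∑ c ∈ (range (4 ^ k)).filter (fun c => B7b_nz k c ≤ h),
          (M : ℝ) ^ h * ((M : ℝ)⁻¹) ^ B7b_nz k c := sum_le_sum h1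
    _ ≤ ∑ c ∈ range (4 ^ k), (M : ℝ) ^ h * ((M : ℝ)⁻¹) ^ B7b_nz k c := by
        apply sum_le_sum_of_subset_of_nonneg (filter_subset _ _)
        intro c _ _
        positivity
    _ = (M : ℝ) ^ h * (1 + 3 / M) ^ k := by
        rw [← mul_sum, B7b_sum, div_eq_mul_inv]

/-- PROOF. `spl_length` with `M = 60`: `log₂ 60 / 60 + log₂ (1.05) / 4 < 0.1163 < 1 / 8`. (`60 ^ 16 < 2 ^ 95`: check `60 ^ (n / 60) ≤ 2 ^ ((95 / 960) n)`; `1.05 ^ 100 < 2 ^ 7.1`.) -/
theorem spl60 : ∃ n₀ : ℕ, ∀ n : ℕ, n₀ ≤ n → (spl n (n / 60)).length < 2 ^ (n / 8) := by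
  refine ⟨200, fun n hn => ?_⟩
  have h0 := spl_length n (n / 60) 60 (by norm_num)
  have h1 : (((spl n (n / 60)).length : ℕ) : ℝ) < (2 : ℝ) ^ (n / 8) := by
    refine lt_of_le_of_lt h0 ?_
    apply lt_of_pow_lt_pow_left₀ 960 (by positivity)
    push_cast
    rw [mul_pow, ← pow_mul, ← pow_mul, ← pow_mul]
    have e1 : (60 : ℝ) ^ (n / 60 * 960) ≤ 2 ^ (95 * n) := by
      calc (60 : ℝ) ^ (n / 60 * 960) = ((60 : ℝ) ^ 16) ^ (n / 60 * 60) := by
            rw [← pow_mul]; congr 1; ring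
        _ ≤ ((2 : ℝ) ^ 95) ^ (n / 60 * 60) := pow_le_pow_left₀ (by norm_num) (by norm_num) _
        _ = (2 : ℝ) ^ (95 * (n / 60 * 60)) := by rw [← pow_mul]
        _ ≤ 2 ^ (95 * n) := pow_le_pow_right₀ (by norm_num) (by
            have := Nat.div_mul_le_self n 60
            omega)
    have e2 : (1 + 3 / (60 : ℝ)) ^ ((n / 4 + 1) * 960) ≤ 2 ^ (18 * n + 72) := by
      calc (1 + 3 / (60 : ℝ)) ^ ((n / 4 + 1) * 960)
          = ((1 + 3 / (60 : ℝ)) ^ 40) ^ ((n / 4 + 1) * 24) := by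
            rw [← pow_mul]; congr 1; ring
        _ ≤ ((2 : ℝ) ^ 3) ^ ((n / 4 + 1) * 24) := pow_le_pow_left₀ (by norm_num) (by norm_num) _
        _ = (2 : ℝ) ^ (3 * ((n / 4 + 1) * 24)) := by rw [← pow_mul]
        _ ≤ 2 ^ (18 * n + 72) := pow_le_pow_right₀ (by norm_num) (by omega)
    calc (60 : ℝ) ^ (n / 60 * 960) * (1 + 3 / (60 : ℝ)) ^ ((n / 4 + 1) * 960)
        ≤ 2 ^ (95 * n) * 2 ^ (18 * n + 72) := mul_le_mul e1 e2 (by positivity) (by positivity)
      _ = (2 : ℝ) ^ (95 * n + (18 * n + 72)) := (pow_add _ _ _).symm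
      _ < 2 ^ (n / 8 * 960) := pow_lt_pow_right₀ (by norm_num) (by omega)
  exact_mod_cast h1

/-- PROOF. `spl_length`: `(n / M) log M + (n / 4 + 1) 3 / M ≤ (n / b - 1) log 2` for large `M` (depending on `b`) and large `n`. -/
theorem splM (b : ℕ) (hb : 0 < b) : ∃ M : ℕ, 100 ≤ M ∧ ∃ n₀ : ℕ, ∀ n : ℕ, n₀ ≤ n →
    (spl n (n / M)).length < 2 ^ (n / b) := by
  have hb0 : (0 : ℝ) < b := by exact_mod_cast hb
  have hl2 : 0 < Real.log 2 := Real.log_pos (by norm_num)
  set ε : ℝ := Real.log 2 / (2 * b) with hε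
  have hε0 : 0 < ε := by positivity
  have t1 : Filter.Tendsto (fun x : ℝ => Real.log x ^ 1 / (1 * x + 0)) Filter.atTop (nhds 0) :=
    Real.tendsto_pow_log_div_mul_add_atTop 1 0 1 one_ne_zero
  have t2 : Filter.Tendsto (fun x : ℝ => 1 / x) Filter.atTop (nhds 0) := by
    simpa using tendsto_inv_atTop_zero (𝕜 := ℝ)
  have e1 : ∀ᶠ M : ℕ in Filter.atTop, Real.log (M : ℝ) ^ 1 / (1 * (M : ℝ) + 0) < ε / 2 :=
    (t1.comp tendsto_natCast_atTop_atTop).eventually_lt_const (by positivity)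
  have e2 : ∀ᶠ M : ℕ in Filter.atTop, 1 / (M : ℝ) < ε / 2 :=
    (t2.comp tendsto_natCast_atTop_atTop).eventually_lt_const (by positivity)
  obtain ⟨M, hM1, hM2, hM3⟩ := (e1.and (e2.and (Filter.eventually_ge_atTop 100))).exists
  refine ⟨M, hM3, ?_⟩
  have hM0 : (0 : ℝ) < M := by
    have : 0 < M := by omega
    exact_mod_cast this
  rw [pow_one, one_mul, add_zero] at hM1
  obtain ⟨n₀, hn₀⟩ := exists_nat_gt ((3 / (M : ℝ) + Real.log 2) / ε)
  refine ⟨n₀, fun n hn => ?_⟩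
  have h0 := spl_length n (n / M) M (by omega)
  have hnn : (3 / (M : ℝ) + Real.log 2) / ε < n := lt_of_lt_of_le hn₀ (by exact_mod_cast hn)
  rw [div_lt_iff₀ hε0] at hnn
  have h1 : (((spl n (n / M)).length : ℕ) : ℝ) < (2 : ℝ) ^ (n / b) := by
    refine lt_of_le_of_lt h0 ?_
    rw [← Real.log_lt_log_iff (by positivity) (by positivity), Real.log_mul (by positivity)
      (by positivity), Real.log_pow, Real.log_pow, Real.log_pow]
    have c1 : ((n / M : ℕ) : ℝ) ≤ (n : ℝ) / M := Nat.cast_div_le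
    have c2 : ((n / 4 : ℕ) : ℝ) ≤ (n : ℝ) / 4 := by
      have := Nat.cast_div_le (α := ℝ) (m := n) (n := 4)
      simpa using this
    have c3 : (n : ℝ) / b - 1 ≤ ((n / b : ℕ) : ℝ) := by
      have h5 : n < b * (n / b + 1) := Nat.lt_mul_div_succ n hb
      have h6 : (n : ℝ) < b * (((n / b : ℕ) : ℝ) + 1) := by exact_mod_cast h5
      rw [sub_le_iff_le_add, div_le_iff₀ hb0]
      linarith
    have l1 : 0 ≤ Real.log (M : ℝ) := Real.log_nonneg (by
      have : 1 ≤ M := by omega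
      exact_mod_cast this)
    have l2 : Real.log (1 + 3 / (M : ℝ)) ≤ 3 / M := by
      have := Real.log_le_sub_one_of_pos (show 0 < 1 + 3 / (M : ℝ) by positivity)
      linarith
    have l3 : 0 ≤ 3 / (M : ℝ) := by positivity
    have d1 : ((n / M : ℕ) : ℝ) * Real.log M ≤ n * (ε / 2) := by
      calc ((n / M : ℕ) : ℝ) * Real.log M ≤ (n : ℝ) / M * Real.log M :=
            mul_le_mul_of_nonneg_right c1 l1
        _ = n * (Real.log M / M) := by ring
        _ ≤ n * (ε / 2) := mul_le_mul_of_nonneg_left hM1.le (Nat.cast_nonneg n)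
    have d2 : (((n / 4 + 1 : ℕ)) : ℝ) * Real.log (1 + 3 / (M : ℝ)) ≤
        n * (3 / 4) * (1 / M) + 3 / M := by
      calc (((n / 4 + 1 : ℕ)) : ℝ) * Real.log (1 + 3 / (M : ℝ))
          ≤ (((n / 4 + 1 : ℕ)) : ℝ) * (3 / M) := mul_le_mul_of_nonneg_left l2 (Nat.cast_nonneg _)
        _ ≤ ((n : ℝ) / 4 + 1) * (3 / M) := by
            apply mul_le_mul_of_nonneg_right _ l3
            push_cast
            linarith
        _ = n * (3 / 4) * (1 / M) + 3 / M := by ring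
    have d3 : (n : ℝ) * (3 / 4) * (1 / M) ≤ n * (ε / 2) := by
      have n0 : (0 : ℝ) ≤ n := Nat.cast_nonneg n
      have : (n : ℝ) * (1 / M) ≤ n * (ε / 2) := mul_le_mul_of_nonneg_left hM2.le n0
      have p0 : 0 ≤ (n : ℝ) * (1 / M) := by positivity
      nlinarith
    have d4 : ((n : ℝ) / b - 1) * Real.log 2 ≤ ((n / b : ℕ) : ℝ) * Real.log 2 :=
      mul_le_mul_of_nonneg_right c3 hl2.le
    have d5 : (n : ℝ) / b * Real.log 2 = 2 * (n * ε) := by
      rw [hε]
      field_simp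
    linarith
  exact_mod_cast h1

end Pool.Agent.MPa9445a.BE
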