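import Mathlib

/-! Bisections, energy of a graph, the class of graphs. -/

set_option autoImplicit false

open Finset

namespace Pool.Agent.MPa9445a.BE

variable {n : ℕ}

open scoped Classical in
/-- The number of edges between `X` and its complement. -/
noncomputable def cut (G : SimpleGraph (Fin n)) (X : Finset (Fin n)) : ℕ :=
  ∑ u ∈ X, ∑ v ∈ Xᶜ, if G.Adj u v then 1 else 0

/-- `X` is a bisection of minimum width. -/
def IsMinBisection (G : SimpleGraph (Fin n)) (X : Finset (Fin n)) : Prop :=
  2 * X.card = n ∧ ∀ Y : Finset (Fin n), 2 * Y.card = n → cut G X ≤ cut G Y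

open scoped Classical in
/-- The adjacency matrix over the real numbers. -/
noncomputable def adjR (G : SimpleGraph (Fin n)) : Matrix (Fin n) (Fin n) ℝ :=
  fun u v => if G.Adj u v then 1 else 0

theorem adjR_herm (G : SimpleGraph (Fin n)) : (adjR G).IsHermitian := by
  refine Matrix.IsHermitian.ext fun u v => ?_
  simp only [adjR, star_trivial]
  by_cases h : G.Adj u v
  · rw [if_pos h, if_pos h.symm]
  · rw [if_neg h, if_neg fun h' => h h'.symm]

/-- The energy of a graph: the sum of the absolute values of its eigenvalues. -/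
noncomputable def gen (G : SimpleGraph (Fin n)) : ℝ := ∑ i, |(adjR_herm G).eigenvalues i|

open scoped Classical in
/-- The number of edges. -/
noncomputable def ne (G : SimpleGraph (Fin n)) : ℕ := G.edgeFinset.card

/-- The edges of `G` outside `H`. -/
def subG (G : SimpleGraph (Fin n)) (H : Finset (Fin n)) : SimpleGraph (Fin n) where
  Adj u v := G.Adj u v ∧ u ∉ H ∧ v ∉ H
  symm := ⟨fun _ _ h => ⟨h.1.symm, h.2.2, h.2.1⟩⟩
  loopless := ⟨fun _ h => G.loopless.irrefl _ h.1⟩

/-- The energy is at least `r √(2 m n)`, `m` the number of edges. -/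
def Energetic (r : ℝ) (G : SimpleGraph (Fin n)) : Prop :=
  r * Real.sqrt (2 * ne G * n) ≤ gen G

/-- The class of graphs: after deletion of a set `H` of at most `n / M` vertices the rest, or its complement,
has energy at least `r √(2 m n)`; or after deletion of at most `n / 60` vertices the rest is edgeless or complete. -/
def Class (r : ℝ) (M : ℕ) (G : SimpleGraph (Fin n)) : Prop :=
  ∃ H : Finset (Fin n),
    (H.card * M ≤ n ∧ (Energetic r (subG G H) ∨ Energetic r (subG Gᶜ H))) ∨
    (60 * H.card ≤ n ∧ (subG G H = ⊥ ∨ subG Gᶜ H = ⊥))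

/-- The coordinates of an eigenvector. -/
private noncomputable def Cls_e {M : Matrix (Fin n) (Fin n) ℝ} (hM : M.IsHermitian) (j : Fin n) : Fin n → ℝ :=
  fun v => hM.eigenvectorBasis j v

private theorem Cls_inner (x y : EuclideanSpace ℝ (Fin n)) :
    inner ℝ x y = ∑ v, x v * y v := by
  rw [PiLp.inner_apply]
  refine Finset.sum_congr rfl fun v _ => ?_
  simp [mul_comm]

private theorem Cls_orth {M : Matrix (Fin n) (Fin n) ℝ} (hM : M.IsHermitian) (i j : Fin n) :
    ∑ v, Cls_e hM i v * Cls_e hM j v = if i = j then 1 else 0 := by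
  have h := orthonormal_iff_ite.1 hM.eigenvectorBasis.orthonormal i j
  rw [Cls_inner] at h
  exact h

private theorem Cls_mul {M : Matrix (Fin n) (Fin n) ℝ} (hM : M.IsHermitian) (j v : Fin n) :
    ∑ w, M v w * Cls_e hM j w = hM.eigenvalues j * Cls_e hM j v := by
  have h := congrFun (hM.mulVec_eigenvectorBasis j) v
  simpa [Matrix.mulVec, dotProduct, Cls_e] using h

private theorem Cls_exp {M : Matrix (Fin n) (Fin n) ℝ} (hM : M.IsHermitian) (u : Fin n → ℝ) (w : Fin n) :
    u w = ∑ j, (∑ v, Cls_e hM j v * u v) * Cls_e hM j w := by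
  have h := hM.eigenvectorBasis.sum_repr' (WithLp.toLp 2 u)
  have h2 := congrArg (fun x : EuclideanSpace ℝ (Fin n) => x w) h
  simp only [smul_eq_mul, WithLp.ofLp_sum, Finset.sum_apply, WithLp.ofLp_smul, Pi.smul_apply] at h2
  rw [← h2]
  refine Finset.sum_congr rfl fun j _ => ?_
  rw [Cls_inner]
  rfl

private theorem Cls_quad {M : Matrix (Fin n) (Fin n) ℝ} (hM : M.IsHermitian) (u : Fin n → ℝ) :
    ∑ v, ∑ w, M v w * u v * u w = ∑ j, hM.eigenvalues j * (∑ v, Cls_e hM j v * u v) ^ 2 := by
  have h1 : ∀ v, ∑ w, M v w * u v * u w =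
      ∑ j, u v * ((∑ w, Cls_e hM j w * u w) * (hM.eigenvalues j * Cls_e hM j v)) := by
    intro v
    have : ∀ w, M v w * u v * u w = ∑ j, u v * ((∑ w, Cls_e hM j w * u w) * (M v w * Cls_e hM j w)) := by
      intro w
      conv_lhs => rw [Cls_exp hM u w]
      rw [Finset.mul_sum]
      refine Finset.sum_congr rfl fun j _ => ?_
      ring
    rw [Finset.sum_congr rfl fun w _ => this w, Finset.sum_comm]
    refine Finset.sum_congr rfl fun j _ => ?_
    rw [← Cls_mul hM j v, Finset.mul_sum, Finset.mul_sum]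
  rw [Finset.sum_congr rfl fun v _ => h1 v, Finset.sum_comm]
  refine Finset.sum_congr rfl fun j _ => ?_
  have h2 : ∀ v, u v * ((∑ w, Cls_e hM j w * u w) * (hM.eigenvalues j * Cls_e hM j v)) =
      (hM.eigenvalues j * ∑ w, Cls_e hM j w * u w) * (Cls_e hM j v * u v) := fun v => by ring
  rw [Finset.sum_congr rfl fun v _ => h2 v, ← Finset.mul_sum]
  ring

/-- The sum of the absolute values of the diagonal coefficients in any orthonormal system is at most the energy. PROOF. With an orthonormal basis `v j` of eigenvectors of `M`: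
`⟪u i, M u i⟫ = ∑ j, λ j ⟪v j, u i⟫²`, so the sum is at most `∑ j, |λ j| ∑ i, ⟪v j, u i⟫² ≤ ∑ j, |λ j|` (Bessel). The vectors are given by their coordinates; use `EuclideanSpace ℝ (Fin n)`,
`Matrix.IsHermitian.eigenvectorBasis`, `Orthonormal.sum_inner_products_le`. -/
theorem energy_ge {M : Matrix (Fin n) (Fin n) ℝ} (hM : M.IsHermitian) {ι : Type*} [Fintype ι]
    (u : ι → Fin n → ℝ) (h1 : ∀ i, ∑ v, u i v * u i v = 1)
    (h0 : ∀ i j, i ≠ j → ∑ v, u i v * u j v = 0) :
    ∑ i, |∑ v, ∑ w, M v w * u i v * u i w| ≤ ∑ i, |hM.eigenvalues i| := by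
  classical
  have hon : Orthonormal ℝ fun i => (WithLp.toLp 2 (u i) : EuclideanSpace ℝ (Fin n)) := by
    rw [orthonormal_iff_ite]
    intro i j
    rw [Cls_inner]
    by_cases hij : i = j
    · subst hij
      rw [if_pos rfl]
      exact h1 i
    · rw [if_neg hij]
      exact h0 i j hij
  have hb : ∀ j, ∑ i, (∑ v, Cls_e hM j v * u i v) ^ 2 ≤ 1 := by
    intro j
    have h := hon.sum_inner_products_le (s := Finset.univ) (hM.eigenvectorBasis j)
    rw [hM.eigenvectorBasis.orthonormal.1 j, one_pow] at h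
    refine le_trans (le_of_eq ?_) h
    refine Finset.sum_congr rfl fun i _ => ?_
    rw [Cls_inner, Real.norm_eq_abs, sq_abs]
    congr 1
    refine Finset.sum_congr rfl fun v _ => ?_
    exact mul_comm _ _
  calc ∑ i, |∑ v, ∑ w, M v w * u i v * u i w|
      = ∑ i, |∑ j, hM.eigenvalues j * (∑ v, Cls_e hM j v * u i v) ^ 2| := by
        refine Finset.sum_congr rfl fun i _ => ?_
        rw [Cls_quad hM (u i)]
    _ ≤ ∑ i, ∑ j, |hM.eigenvalues j| * (∑ v, Cls_e hM j v * u i v) ^ 2 := by
        refine Finset.sum_le_sum fun i _ => ?_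
        refine (Finset.abs_sum_le_sum_abs _ _).trans (le_of_eq ?_)
        refine Finset.sum_congr rfl fun j _ => ?_
        rw [abs_mul, abs_of_nonneg (sq_nonneg (∑ v, Cls_e hM j v * u i v))]
    _ = ∑ j, |hM.eigenvalues j| * ∑ i, (∑ v, Cls_e hM j v * u i v) ^ 2 := by
        rw [Finset.sum_comm]
        refine Finset.sum_congr rfl fun j _ => ?_
        rw [Finset.mul_sum]
    _ ≤ ∑ j, |hM.eigenvalues j| := by
        refine Finset.sum_le_sum fun j _ => ?_
        exact mul_le_of_le_one_right (abs_nonneg _) (hb j)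

private theorem Cls_le {M M' : Matrix (Fin n) (Fin n) ℝ} (hM : M.IsHermitian) (hM' : M'.IsHermitian)
    (h : M' = -M) : ∑ i, |hM'.eigenvalues i| ≤ ∑ i, |hM.eigenvalues i| := by
  have hg := energy_ge hM (fun i : Fin n => Cls_e hM' i)
    (fun i => by rw [Cls_orth, if_pos rfl]) (fun i j hij => by rw [Cls_orth, if_neg hij])
  refine le_trans (le_of_eq ?_) hg
  refine Finset.sum_congr rfl fun i _ => ?_
  have hq : ∑ v, ∑ w, M v w * Cls_e hM' i v * Cls_e hM' i w = - hM'.eigenvalues i := by
    have h2 : ∀ v, ∑ w, M v w * Cls_e hM' i v * Cls_e hM' i w =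
        - (hM'.eigenvalues i * (Cls_e hM' i v * Cls_e hM' i v)) := by
      intro v
      have h3 := Cls_mul hM' i v
      have h4 : ∀ w, M v w * Cls_e hM' i v * Cls_e hM' i w = - (Cls_e hM' i v * (M' v w * Cls_e hM' i w)) := by
        intro w
        have h5 : M' v w = - M v w := by
          rw [congrFun (congrFun h v) w]
          exact Matrix.neg_apply _ _ _
        rw [h5]
        ring
      rw [Finset.sum_congr rfl fun w _ => h4 w, Finset.sum_neg_distrib, ← Finset.mul_sum, h3]
      ring
    rw [Finset.sum_congr rfl fun v _ => h2 v, Finset.sum_neg_distrib, ← Finset.mul_sum, Cls_orth, if_pos rfl,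
      mul_one]
  rw [hq, abs_neg]

/-- PROOF. `energy_ge` for the eigenbasis of the other matrix, in both directions. -/
theorem energy_neg {M M' : Matrix (Fin n) (Fin n) ℝ} (hM : M.IsHermitian) (hM' : M'.IsHermitian)
    (h : M' = -M) : ∑ i, |hM'.eigenvalues i| = ∑ i, |hM.eigenvalues i| :=
  le_antisymm (Cls_le hM hM' h) (Cls_le hM' hM (by rw [h, neg_neg]))

open scoped Classical in
/-- PROOF. `SimpleGraph.sum_degrees_eq_twice_card_edges`. -/
theorem sum_adjR_sq (G : SimpleGraph (Fin n)) : ∑ u, ∑ v, adjR G u v ^ 2 = 2 * ne G := by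
  have h := G.sum_degrees_eq_twice_card_edges
  have h1 : ∀ u, ∑ v, adjR G u v ^ 2 = (G.degree u : ℝ) := by
    intro u
    have : ∀ v, adjR G u v ^ 2 = if G.Adj u v then (1 : ℝ) else 0 := by
      intro v
      unfold adjR
      by_cases hv : G.Adj u v
      · rw [if_pos hv, one_pow]
      · rw [if_neg hv]
        norm_num
    rw [Finset.sum_congr rfl fun v _ => this v, Finset.sum_boole, ← SimpleGraph.card_neighborFinset_eq_degree]
    congr 2
    ext v
    simp
  rw [Finset.sum_congr rfl fun u _ => h1 u, ne, ← Nat.cast_sum, h]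
  push_cast
  rfl

end Pool.Agent.MPa9445a.BE
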