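import Pool.Agent.Lib.MP_a9445a_lc.Mg.G111

/-! Casts, Cauchy-Schwarz, off-diagonal part. -/

set_option autoImplicit false

open Finset

namespace Pool.Agent.MPa9445a.BE

variable {n : ℕ}

/-- PROOF. `push_cast`. -/
theorem nsq_cast (x : Fin n → ℤ) : ((nsq x : ℤ) : ℝ) = nr (vr x) := by
  unfold nsq nr vr
  push_cast
  rfl

/-- PROOF. `push_cast`. -/
theorem qf_cast (S : Matrix (Fin n) (Fin n) ℤ) (x : Fin n → ℤ) :
    ((qf S x : ℤ) : ℝ) = qr (rl S) (vr x) := by
  unfold qf qr rl vr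
  push_cast
  rfl

/-- PROOF. `rl S = S.map (Int.castRingHom ℝ)`, `Matrix.map_pow`, `RingHom.map_mulVec`. -/
theorem cube_cast (S : Matrix (Fin n) (Fin n) ℤ) (x : Fin n → ℤ) :
    vr ((S ^ 3).mulVec x) = ((rl S) ^ 3).mulVec (vr x) := by
  have h1 : rl S = (Int.castRingHom ℝ).mapMatrix S := by
    ext u v
    simp [rl]
  rw [h1, ← map_pow]
  funext v
  have h2 := RingHom.map_mulVec (Int.castRingHom ℝ) (S ^ 3) x v
  exact h2

/-- PROOF. `push_cast`. -/
theorem D2_cast (S : Matrix (Fin n) (Fin n) ℤ) :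
    ((D2 S : ℤ) : ℝ) = ∑ u, ∑ v, rl S u v ^ 2 := by
  unfold D2 rl
  push_cast
  rfl

/-- PROOF. Definition, `nsq_cast`, `cube_cast`; `vr (x' - x) = vr x' - vr x`. -/
theorem mem_ball {S : Matrix (Fin n) (Fin n) ℤ} {b : Fin n → ℤ} {R : ℝ} {Y : Finset (Fin n)}
    {x x' : Fin n → ℤ} : x' ∈ ball S b R Y x ↔ x' ∈ Om Y ∧ ∑ v, x' v = ∑ v, x v ∧
      lf b x' = lf b x ∧ nr (((rl S) ^ 3).mulVec (vr x' - vr x)) ≤ R := by
  have h1 : vr (x' - x) = vr x' - vr x := by
    funext v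
    simp [vr]
  unfold ball
  rw [Finset.mem_filter, nsq_cast, cube_cast, h1]

/-- PROOF. `nr (vr x) = ∑ v, (if v ∈ Y then 1 else 0)` (`mem_Om`). -/
theorem nr_Om {Y : Finset (Fin n)} {x : Fin n → ℤ} (hx : x ∈ Om Y) :
    nr (vr x) = Y.card ∧ ∀ v, |vr x v| ≤ 1 := by
  rw [mem_Om] at hx
  have h1 : ∀ v, vr x v ^ 2 = if v ∈ Y then 1 else 0 := by
    intro v
    unfold vr
    by_cases hv : v ∈ Y
    · rw [if_pos hv]
      rcases (hx v).1 hv with h | h <;> rw [h] <;> norm_num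
    · rw [if_neg hv, (hx v).2 hv]
      norm_num
  constructor
  · unfold nr
    rw [Finset.sum_congr rfl fun v _ => h1 v]
    simp
  · intro v
    rw [← sq_le_one_iff_abs_le_one, h1 v]
    split_ifs <;> norm_num

private theorem X0_cs (a b : Fin n → ℝ) :
    |∑ v, a v * b v| ≤ Real.sqrt (nr a) * Real.sqrt (nr b) := by
  have ha : 0 ≤ nr a := Finset.sum_nonneg fun v _ => sq_nonneg _
  rw [← Real.sqrt_mul ha]
  apply Real.abs_le_sqrt
  exact Finset.sum_mul_sq_le_sq_mul_sq _ _ _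

/-- PROOF. `qr P x - qr P y = ∑ v, (P (x - y)) v (x + y) v` by symmetry, and Cauchy-Schwarz. -/
theorem qr_sub (P : Matrix (Fin n) (Fin n) ℝ) (hs : ∀ u v, P u v = P v u) (x y : Fin n → ℝ) :
    |qr P x - qr P y| ≤ Real.sqrt (nr (P.mulVec (x - y))) * Real.sqrt (nr (x + y)) := by
  have h1 : qr P x - qr P y = ∑ u, (P.mulVec (x - y)) u * (x + y) u := by
    have h2 : ∑ u, ∑ v, P u v * x v * y u = ∑ u, ∑ v, P u v * y v * x u := by
      rw [Finset.sum_comm]
      refine Finset.sum_congr rfl fun u _ => Finset.sum_congr rfl fun v _ => ?_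
      rw [hs v u]
      ring
    have h3 : ∑ u, (P.mulVec (x - y)) u * (x + y) u =
        ∑ u, ∑ v, (P u v * x u * x v - P u v * y u * y v + (P u v * x v * y u - P u v * y v * x u)) := by
      refine Finset.sum_congr rfl fun u _ => ?_
      unfold Matrix.mulVec dotProduct
      rw [Finset.sum_mul]
      refine Finset.sum_congr rfl fun v _ => ?_
      simp only [Pi.sub_apply, Pi.add_apply]
      ring
    rw [h3]
    simp only [Finset.sum_add_distrib, Finset.sum_sub_distrib]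
    rw [h2]
    unfold qr
    ring
  rw [h1]
  exact X0_cs _ _

private theorem X0_qr (A : Matrix (Fin n) (Fin n) ℝ) (z : Fin n → ℝ) :
    qr A z = ∑ u, (A.mulVec z) u * z u := by
  unfold qr
  refine Finset.sum_congr rfl fun u _ => ?_
  unfold Matrix.mulVec dotProduct
  rw [Finset.sum_mul]
  refine Finset.sum_congr rfl fun v _ => ?_
  ring

/-- PROOF. Cauchy-Schwarz: `|qr A z| ≤ √(nr (A z)) √(nr z) ≤ t nr z`. -/
theorem qr_le {A : Matrix (Fin n) (Fin n) ℝ} {t : ℝ} (ht : 0 < t)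
    (h : ∀ z : Fin n → ℝ, nr (A.mulVec z) ≤ t ^ 2 * nr z) (z : Fin n → ℝ) :
    |qr A z| ≤ t * nr z := by
  have hz : 0 ≤ nr z := Finset.sum_nonneg fun v _ => sq_nonneg _
  rw [X0_qr]
  refine (X0_cs _ _).trans ?_
  have h1 : Real.sqrt (nr (A.mulVec z)) ≤ t * Real.sqrt (nr z) := by
    have h2 := Real.sqrt_le_sqrt (h z)
    rwa [Real.sqrt_mul (sq_nonneg t), Real.sqrt_sq ht.le] at h2
  calc Real.sqrt (nr (A.mulVec z)) * Real.sqrt (nr z) ≤ t * Real.sqrt (nr z) * Real.sqrt (nr z) :=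
        mul_le_mul_of_nonneg_right h1 (Real.sqrt_nonneg _)
    _ = t * nr z := by rw [mul_assoc, Real.mul_self_sqrt hz]

/-- The difference of the `P`-energies of two points of a ball. PROOF. `qr_sub`, `nr (P (x - y)) ≤ R / t ^ 4` and
`nr (x + y) ≤ 4 n`. -/
theorem p_diff {M P : Matrix (Fin n) (Fin n) ℝ} (hs : ∀ u v, P u v = P v u) {t R : ℝ}
    (ht : 0 < t) (hP : ∀ z : Fin n → ℝ, t ^ 4 * nr (P.mulVec z) ≤ nr ((M ^ 3).mulVec z))
    {x y : Fin n → ℝ} (hx : ∀ v, |x v| ≤ 1) (hy : ∀ v, |y v| ≤ 1)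
    (h : nr ((M ^ 3).mulVec (x - y)) ≤ R) :
    |qr P x - qr P y| ≤ 2 * Real.sqrt (n * R) / t ^ 2 := by
  refine (qr_sub P hs x y).trans ?_
  have ht4 : 0 < t ^ 4 := by positivity
  have h1 : nr (P.mulVec (x - y)) ≤ R / t ^ 4 := by
    rw [le_div_iff₀ ht4, mul_comm]
    exact (hP _).trans h
  have hR : 0 ≤ R := le_trans (Finset.sum_nonneg fun v _ => sq_nonneg _) h
  have h2 : nr (x + y) ≤ 4 * n := by
    have h3 : ∀ v, (x + y) v ^ 2 ≤ 4 := by
      intro v
      have h4 := abs_le.1 (hx v)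
      have h5 := abs_le.1 (hy v)
      have h6 : |(x + y) v| ≤ 2 := by
        rw [Pi.add_apply, abs_le]
        constructor <;> linarith [h4.1, h4.2, h5.1, h5.2]
      calc (x + y) v ^ 2 = |(x + y) v| ^ 2 := (sq_abs _).symm
        _ ≤ 2 ^ 2 := pow_le_pow_left₀ (abs_nonneg _) h6 2
        _ = 4 := by norm_num
    calc nr (x + y) ≤ ∑ _v : Fin n, (4 : ℝ) := Finset.sum_le_sum fun v _ => h3 v
      _ = 4 * n := by simp [mul_comm]
  have h3 : Real.sqrt (nr (P.mulVec (x - y))) ≤ Real.sqrt R / t ^ 2 := by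
    have h4 := Real.sqrt_le_sqrt h1
    rwa [Real.sqrt_div hR, show t ^ 4 = (t ^ 2) ^ 2 by ring, Real.sqrt_sq (sq_nonneg t)] at h4
  have h4 : Real.sqrt (nr (x + y)) ≤ 2 * Real.sqrt n := by
    have h5 := Real.sqrt_le_sqrt h2
    rwa [Real.sqrt_mul (by norm_num : (0 : ℝ) ≤ 4), show (4 : ℝ) = 2 ^ 2 by norm_num,
      Real.sqrt_sq (by norm_num : (0 : ℝ) ≤ 2)] at h5
  calc Real.sqrt (nr (P.mulVec (x - y))) * Real.sqrt (nr (x + y))
      ≤ (Real.sqrt R / t ^ 2) * (2 * Real.sqrt n) :=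
        mul_le_mul h3 h4 (Real.sqrt_nonneg _) (by positivity)
    _ = 2 * Real.sqrt (n * R) / t ^ 2 := by
        rw [Real.sqrt_mul (Nat.cast_nonneg n)]
        ring

/-- The off-diagonal part. -/
def od (A : Matrix (Fin n) (Fin n) ℝ) : Matrix (Fin n) (Fin n) ℝ :=
  fun u v => if u = v then 0 else A u v

private theorem X0_od (A : Matrix (Fin n) (Fin n) ℝ) (z : Fin n → ℝ) :
    qr A z = qr (od A) z + ∑ v, A v v * z v ^ 2 := by
  unfold qr od
  rw [← Finset.sum_add_distrib]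
  refine Finset.sum_congr rfl fun u _ => ?_
  have h1 : ∑ v, A u v * z u * z v =
      ∑ v, ((if u = v then 0 else A u v) * z u * z v + (if u = v then A u v * z u * z v else 0)) := by
    refine Finset.sum_congr rfl fun v _ => ?_
    split_ifs <;> ring
  rw [h1, Finset.sum_add_distrib]
  congr 1
  rw [Finset.sum_ite_eq]
  simp only [Finset.mem_univ, if_true]
  ring

/-- PROOF. `|A v v| ≤ t` (apply `qr_le` to the basis vector), so `|∑ v, A v v z v ^ 2| ≤ t nr z`. -/
theorem od_le {A : Matrix (Fin n) (Fin n) ℝ} {t : ℝ} (ht : 0 < t)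
    (h : ∀ z : Fin n → ℝ, nr (A.mulVec z) ≤ t ^ 2 * nr z) (z : Fin n → ℝ) :
    |qr (od A) z| ≤ 2 * t * nr z := by
  have h1 : ∀ v, |A v v| ≤ t := by
    intro v
    have h2 := qr_le ht h (fun u => if u = v then 1 else 0)
    have h3 : qr A (fun u => if u = v then 1 else 0) = A v v := by
      unfold qr
      rw [Finset.sum_eq_single v, Finset.sum_eq_single v]
      · simp
      · intro u _ hu
        simp [hu]
      · intro hcon
        exact absurd (Finset.mem_univ v) hcon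
      · intro u _ hu
        simp [hu]
      · intro hcon
        exact absurd (Finset.mem_univ v) hcon
    have h4 : nr (fun u : Fin n => if u = v then (1 : ℝ) else 0) = 1 := by
      unfold nr
      simp
    rw [h3, h4, mul_one] at h2
    exact h2
  have h2 : |∑ v, A v v * z v ^ 2| ≤ t * nr z := by
    refine (Finset.abs_sum_le_sum_abs _ _).trans ?_
    unfold nr
    rw [Finset.mul_sum]
    refine Finset.sum_le_sum fun v _ => ?_
    rw [abs_mul, abs_of_nonneg (sq_nonneg (z v))]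
    exact mul_le_mul_of_nonneg_right (h1 v) (sq_nonneg _)
  have h3 := qr_le ht h z
  have h4 : qr (od A) z = qr A z - ∑ v, A v v * z v ^ 2 := by
    rw [X0_od A z]
    ring
  rw [h4]
  refine (abs_sub _ _).trans ?_
  linarith

/-- PROOF. Split the diagonal terms off; `(x v)² = 1` on `Y` and `0` outside. -/
theorem od_Om (A : Matrix (Fin n) (Fin n) ℝ) {Y : Finset (Fin n)} {x : Fin n → ℤ}
    (hx : x ∈ Om Y) : qr A (vr x) = qr (od A) (vr x) + ∑ v ∈ Y, A v v := by
  rw [X0_od A (vr x)]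
  congr 1
  rw [mem_Om] at hx
  have h1 : ∀ v, A v v * vr x v ^ 2 = if v ∈ Y then A v v else 0 := by
    intro v
    unfold vr
    by_cases hv : v ∈ Y
    · rw [if_pos hv]
      rcases (hx v).1 hv with h | h <;> rw [h] <;> norm_num
    · rw [if_neg hv, (hx v).2 hv]
      norm_num
  rw [Finset.sum_congr rfl fun v _ => h1 v]
  simp

/-- PROOF. Termwise. -/
theorem od_sq (A : Matrix (Fin n) (Fin n) ℝ) :
    ∑ u, ∑ v, od A u v ^ 2 ≤ ∑ u, ∑ v, A u v ^ 2 := by
  refine Finset.sum_le_sum fun u _ => Finset.sum_le_sum fun v _ => ?_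
  unfold od
  split_ifs
  · rw [zero_pow two_ne_zero]
    exact sq_nonneg _
  · exact le_refl _

/-- PROOF. Each entry is at most the corresponding entry of `A` ... the sum over `v` of `|A v v|` where `A v v = - P v v`. -/
theorem diag_sum {M A P : Matrix (Fin n) (Fin n) ℝ} (hM : M = A + P) (h0 : ∀ v, M v v = 0)
    (Y : Finset (Fin n)) : |∑ v ∈ Y, A v v| ≤ ∑ v, |P v v| := by
  refine (Finset.abs_sum_le_sum_abs _ _).trans ?_
  have h1 : ∀ v, |A v v| = |P v v| := by
    intro v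
    have h2 := h0 v
    rw [hM, Matrix.add_apply] at h2
    have h3 : A v v = - P v v := by linarith
    rw [h3, abs_neg]
  rw [Finset.sum_congr rfl fun v _ => h1 v]
  exact Finset.sum_le_sum_of_subset_of_nonneg (Finset.subset_univ _) fun v _ _ => abs_nonneg _

end Pool.Agent.MPa9445a.BE
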