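import Mathlib

/-!
# Definitions: sign vectors, quadratic forms, balls, kept vectors
-/

set_option autoImplicit false

open Finset

namespace Pool.Agent.MPa9445a.BE

variable {n : ℕ}

/-- The vectors with entries `1, -1` on `Y` and `0` outside `Y`. -/
def Om (Y : Finset (Fin n)) : Finset (Fin n → ℤ) :=
  Fintype.piFinset fun v => if v ∈ Y then {1, -1} else {0}

/-- The quadratic form of an integer matrix. -/
def qf (S : Matrix (Fin n) (Fin n) ℤ) (x : Fin n → ℤ) : ℤ := ∑ u, ∑ v, S u v * x u * x v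

/-- The linear form. -/
def lf (b x : Fin n → ℤ) : ℤ := ∑ v, b v * x v

/-- The square of the euclidean norm of an integer vector. -/
def nsq (x : Fin n → ℤ) : ℤ := ∑ v, x v ^ 2

/-- The restriction of `x` to `W`. -/
def rs (W : Finset (Fin n)) (x : Fin n → ℤ) : Fin n → ℤ := fun v => if v ∈ W then x v else 0

/-- Symmetric matrices with zero diagonal and entries in `{-1, 0, 1}`. -/
structure Mat (S : Matrix (Fin n) (Fin n) ℤ) : Prop where
  symm : ∀ u v, S u v = S v u
  diag : ∀ v, S v v = 0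
  bd : ∀ u v, |S u v| ≤ 1

/-- The sum of the squares of the entries. -/
def D2 (S : Matrix (Fin n) (Fin n) ℤ) : ℤ := ∑ u, ∑ v, S u v ^ 2

/-- The real quadratic form. -/
noncomputable def qr (M : Matrix (Fin n) (Fin n) ℝ) (z : Fin n → ℝ) : ℝ :=
  ∑ u, ∑ v, M u v * z u * z v

/-- The real matrix with the entries of `S`. -/
noncomputable def rl (S : Matrix (Fin n) (Fin n) ℤ) : Matrix (Fin n) (Fin n) ℝ := fun u v => (S u v : ℝ)

/-- The real vector with the entries of `x`. -/
def vr (x : Fin n → ℤ) : Fin n → ℝ := fun v => (x v : ℝ)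

/-- The square of the euclidean norm. -/
noncomputable def nr (z : Fin n → ℝ) : ℝ := ∑ v, z v ^ 2

/-- The ball around `x` in the vectors with support `Y`: same sum, same value of the linear form,
and `|S³ (x' - x)|² ≤ R`. -/
noncomputable def ball (S : Matrix (Fin n) (Fin n) ℤ) (b : Fin n → ℤ) (R : ℝ)
    (Y : Finset (Fin n)) (x : Fin n → ℤ) : Finset (Fin n → ℤ) :=
  (Om Y).filter fun x' => ∑ v, x' v = ∑ v, x v ∧ lf b x' = lf b x ∧
    (nsq ((S ^ 3).mulVec (x' - x)) : ℝ) ≤ R

/-- The vector `x` is kept: its ball is light (at most `2 ^ (|Y| - e)` elements), or its energy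
differs from the average over the ball by more than `τ`. -/
def Keep (S : Matrix (Fin n) (Fin n) ℤ) (b : Fin n → ℤ) (R : ℝ) (e : ℕ) (τ : ℝ)
    (Y : Finset (Fin n)) (x : Fin n → ℤ) : Prop :=
  (ball S b R Y x).card * 2 ^ e ≤ 2 ^ Y.card ∨
    τ * (ball S b R Y x).card <
      |((ball S b R Y x).card * qf S x - ∑ y ∈ ball S b R Y x, qf S y : ℤ)|

/-- The integer parameters of the algorithm. -/
structure Par where
  /-- numerator and denominator of the radius of the balls -/
  p1 : ℕ
  q1 : ℕ
  /-- numerator and denominator of the threshold of the energy -/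
  p2 : ℕ
  q2 : ℕ
  /-- numerator and denominator of the exponent of light balls -/
  p3 : ℕ
  q3 : ℕ
  q1pos : 0 < q1
  q2pos : 0 < q2
  q3pos : 0 < q3

/-- The radius (square): `(p₁ / q₁) D₂³ / n²`. -/
noncomputable def Par.R (p : Par) (S : Matrix (Fin n) (Fin n) ℤ) : ℝ :=
  (p.p1 / p.q1 : ℝ) * (D2 S : ℝ) ^ 3 / (n : ℝ) ^ 2

/-- The exponent of light balls. -/
def Par.e (p : Par) (n : ℕ) : ℕ := p.p3 * n / p.q3

/-- The threshold of the energy: `√((p₂ / q₂) D₂ n)`. -/
noncomputable def Par.th (p : Par) (S : Matrix (Fin n) (Fin n) ℤ) : ℝ :=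
  Real.sqrt ((p.p2 / p.q2 : ℝ) * D2 S * n)

/-- The vector `x` is kept, for the parameters `p`. -/
def Kp (p : Par) (S : Matrix (Fin n) (Fin n) ℤ) (b : Fin n → ℤ) (Y : Finset (Fin n))
    (x : Fin n → ℤ) : Prop := Keep S b (p.R S) (p.e n) (p.th S) Y x

theorem isHermitian_rl {S : Matrix (Fin n) (Fin n) ℤ} (hS : Mat S) : (rl S).IsHermitian := by
  refine Matrix.IsHermitian.ext fun u v => ?_
  simp only [rl, star_trivial]
  rw [hS.symm]

/-- The energy: the sum of the absolute values of the eigenvalues. -/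
noncomputable def energy {M : Matrix (Fin n) (Fin n) ℝ} (hM : M.IsHermitian) : ℝ :=
  ∑ i, |hM.eigenvalues i|

end Pool.Agent.MPa9445a.BE
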