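import Mathlib

/-!
# A small programming language

Functional programs over integers and arrays of integers, with logarithmic cost, and with an
instruction for the product of two `k × k` matrices, which costs `k ^ τ` (times the length of the
entries).
-/

set_option autoImplicit false

namespace Pool.Agent.MPa9445a.BE

/-- The two types of values: integers and arrays of integers. -/
inductive Ty
  | int
  | arr

/-- The values of a type. -/
abbrev Ty.Val : Ty → Type
  | .int => ℤ
  | .arr => List ℤ

/-- The values of the variables: a variable of type `t` is added in front. -/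
abbrev Env : List Ty → Type
  | [] => Unit
  | t :: Γ => t.Val × Env Γ

/-- Programs whose variables have the types `Γ` and whose result has type `t`. -/
inductive Ex : List Ty → Ty → Type
  /-- the newest variable -/
  | top {Γ : List Ty} {t : Ty} : Ex (t :: Γ) t
  /-- a program which does not use the newest variable -/
  | wk {Γ : List Ty} {s t : Ty} (e : Ex Γ t) : Ex (s :: Γ) t
  /-- a constant -/
  | const {Γ : List Ty} (c : ℤ) : Ex Γ .int
  /-- sum of two numbers -/
  | add {Γ : List Ty} (a b : Ex Γ .int) : Ex Γ .int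
  /-- difference -/
  | sub {Γ : List Ty} (a b : Ex Γ .int) : Ex Γ .int
  /-- product -/
  | mul {Γ : List Ty} (a b : Ex Γ .int) : Ex Γ .int
  /-- integral quotient -/
  | div {Γ : List Ty} (a b : Ex Γ .int) : Ex Γ .int
  /-- remainder -/
  | mod {Γ : List Ty} (a b : Ex Γ .int) : Ex Γ .int
  /-- comparison: `1` if `a ≤ b`, otherwise `0` -/
  | le {Γ : List Ty} (a b : Ex Γ .int) : Ex Γ .int
  /-- branching: `a` if `c ≠ 0`, otherwise `b` -/
  | ite {Γ : List Ty} (c a b : Ex Γ .int) : Ex Γ .int
  /-- power of two -/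
  | pow2 {Γ : List Ty} (a : Ex Γ .int) : Ex Γ .int
  /-- the entry of an array (`0` outside the array) -/
  | get {Γ : List Ty} (l : Ex Γ .arr) (i : Ex Γ .int) : Ex Γ .int
  /-- the number of entries of an array -/
  | len {Γ : List Ty} (l : Ex Γ .arr) : Ex Γ .int
  /-- loop: the sum of `e i`, `i < k` -/
  | sum {Γ : List Ty} (k : Ex Γ .int) (e : Ex (.int :: Γ) .int) : Ex Γ .int
  /-- loop: the least `i < k` for which `e i` is maximal -/
  | amax {Γ : List Ty} (k : Ex Γ .int) (e : Ex (.int :: Γ) .int) : Ex Γ .int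
  /-- loop: the array of the `e i`, `i < k` -/
  | tab {Γ : List Ty} (k : Ex Γ .int) (e : Ex (.int :: Γ) .int) : Ex Γ .arr
  /-- loop: the array of the `i < k` with `e i ≠ 0` -/
  | filter {Γ : List Ty} (k : Ex Γ .int) (e : Ex (.int :: Γ) .int) : Ex Γ .arr
  /-- the product of two `k × k` matrices, given by arrays with `k ^ 2` entries, row by row -/
  | mm {Γ : List Ty} (k : Ex Γ .int) (a b : Ex Γ .arr) : Ex Γ .arr
  /-- store the value of `a` in a new variable and continue with `e` -/
  | bind {Γ : List Ty} {s t : Ty} (a : Ex Γ s) (e : Ex (s :: Γ) t) : Ex Γ t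

/-- The `i`-th entry of the array `l`; `0` if there is none. -/
def nth (l : List ℤ) (i : ℤ) : ℤ := if 0 ≤ i then l.getD i.toNat 0 else 0

/-- The least `i < k` for which `f i` is maximal (`0` if `k = 0`). -/
def argmax (k : ℕ) (f : ℤ → ℤ) : ℕ :=
  ((List.range k).find? fun i : ℕ =>
    (List.range k).all fun j : ℕ => decide (f (j : ℤ) ≤ f (i : ℤ))).getD 0

/-- The product of two `k × k` matrices, row by row. -/
def matMul (k : ℕ) (a b : List ℤ) : List ℤ :=
  (List.range (k * k)).map fun i : ℕ =>
    ∑ l ∈ Finset.range k, nth a ((i / k * k + l : ℕ) : ℤ) * nth b ((l * k + i % k : ℕ) : ℤ)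

namespace Ex

/-- The result of a program. -/
def eval : {Γ : List Ty} → {t : Ty} → Ex Γ t → Env Γ → t.Val
  | _, _, top, γ => γ.1
  | _, _, wk e, γ => e.eval γ.2
  | _, _, const c, _ => c
  | _, _, add a b, γ => a.eval γ + b.eval γ
  | _, _, sub a b, γ => a.eval γ - b.eval γ
  | _, _, mul a b, γ => a.eval γ * b.eval γ
  | _, _, div a b, γ => a.eval γ / b.eval γ
  | _, _, mod a b, γ => a.eval γ % b.eval γ
  | _, _, le a b, γ => if a.eval γ ≤ b.eval γ then 1 else 0
  | _, _, ite c a b, γ => if c.eval γ ≠ 0 then a.eval γ else b.eval γ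
  | _, _, pow2 a, γ => 2 ^ (a.eval γ).toNat
  | _, _, get l i, γ => nth (l.eval γ) (i.eval γ)
  | _, _, len l, γ => ((l.eval γ).length : ℤ)
  | _, _, sum k e, γ => ∑ i ∈ Finset.range (k.eval γ).toNat, e.eval ((i : ℤ), γ)
  | _, _, amax k e, γ => (argmax (k.eval γ).toNat fun i => e.eval (i, γ) : ℕ)
  | _, _, tab k e, γ => (List.range (k.eval γ).toNat).map fun i : ℕ => e.eval ((i : ℤ), γ)
  | _, _, filter k e, γ => ((List.range (k.eval γ).toNat).filter fun i : ℕ =>
      decide (e.eval ((i : ℤ), γ) ≠ 0)).map fun i : ℕ => (i : ℤ)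
  | _, _, mm k a b, γ => matMul (k.eval γ).toNat (a.eval γ) (b.eval γ)
  | _, _, bind a e, γ => e.eval (a.eval γ, γ)

end Ex

/-- The number of binary digits of an integer. -/
def sz (v : ℤ) : ℕ := Nat.size v.natAbs

/-- The maximal number of binary digits of the entries of an array. -/
def asz (l : List ℤ) : ℕ := (l.map sz).foldr max 0

namespace Ex

/-- The running time. Every elementary operation on numbers is charged one plus the number of
binary digits of its result (products, quotients and remainders: the product of the lengths of the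
operands, plus one). A loop is charged the total running time of its passes, plus in every pass
one plus the lengths of the loop counter and of the numbers which it adds, compares or stores. The
product of two `k × k` matrices is charged `k ^ τ` times one plus the lengths of the entries. -/
noncomputable def cost (τ : ℝ) : {Γ : List Ty} → {t : Ty} → Ex Γ t → Env Γ → ℝ
  | _, .int, top, γ => 1 + sz γ.1
  | _, .arr, top, _ => 1
  | _, _, wk e, γ => e.cost τ γ.2
  | _, _, const c, _ => 1 + sz c
  | _, _, add a b, γ => a.cost τ γ + b.cost τ γ + 1 + sz (a.eval γ + b.eval γ)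
  | _, _, sub a b, γ => a.cost τ γ + b.cost τ γ + 1 + sz (a.eval γ - b.eval γ)
  | _, _, mul a b, γ => a.cost τ γ + b.cost τ γ + (1 + sz (a.eval γ)) * (1 + sz (b.eval γ))
  | _, _, div a b, γ => a.cost τ γ + b.cost τ γ + (1 + sz (a.eval γ)) * (1 + sz (b.eval γ))
  | _, _, mod a b, γ => a.cost τ γ + b.cost τ γ + (1 + sz (a.eval γ)) * (1 + sz (b.eval γ))
  | _, _, le a b, γ => a.cost τ γ + b.cost τ γ + 1 + sz (a.eval γ) + sz (b.eval γ)
  | _, _, ite c a b, γ => c.cost τ γ + 1 + if c.eval γ ≠ 0 then a.cost τ γ else b.cost τ γ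
  | _, _, pow2 a, γ => a.cost τ γ + 1 + sz (2 ^ (a.eval γ).toNat)
  | _, _, get l i, γ => l.cost τ γ + i.cost τ γ + 1 + sz (nth (l.eval γ) (i.eval γ))
  | _, _, len l, γ => l.cost τ γ + 1 + sz (l.eval γ).length
  | _, _, sum k e, γ => k.cost τ γ + 1 + ∑ i ∈ Finset.range (k.eval γ).toNat,
      (e.cost τ ((i : ℤ), γ) + 1 + sz (k.eval γ) +
        sz (∑ j ∈ Finset.range (k.eval γ).toNat, |e.eval ((j : ℤ), γ)|))
  | _, _, amax k e, γ => k.cost τ γ + 1 + ∑ i ∈ Finset.range (k.eval γ).toNat,
      (e.cost τ ((i : ℤ), γ) + 1 + sz (k.eval γ) + sz (e.eval ((i : ℤ), γ)))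
  | _, _, tab k e, γ => k.cost τ γ + 1 + ∑ i ∈ Finset.range (k.eval γ).toNat,
      (e.cost τ ((i : ℤ), γ) + 1 + sz (k.eval γ) + sz (e.eval ((i : ℤ), γ)))
  | _, _, filter k e, γ => k.cost τ γ + 1 + ∑ i ∈ Finset.range (k.eval γ).toNat,
      (e.cost τ ((i : ℤ), γ) + 1 + sz (k.eval γ) + sz (e.eval ((i : ℤ), γ)))
  | _, _, mm k a b, γ => k.cost τ γ + a.cost τ γ + b.cost τ γ + 1 +
      ((k.eval γ).toNat : ℝ) ^ τ * (1 + sz (k.eval γ) + asz (a.eval γ) + asz (b.eval γ) +
        asz (matMul (k.eval γ).toNat (a.eval γ) (b.eval γ)))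
  | _, _, bind a e, γ => a.cost τ γ + 1 + e.cost τ (a.eval γ, γ)

end Ex

end Pool.Agent.MPa9445a.BE
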