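import Pool.Agent.Lib.MP_a9445a_lc.Mg.G115
import Pool.Agent.Lib.MP_a9445a_lc.Mg.G117

/-! The result of the algorithm. -/

set_option autoImplicit false

open Finset

namespace Pool.Agent.MPa9445a.BE

variable {n : ℕ}

private theorem B9_Phi (M : List ℤ) (c : ℕ) :
    Phi n M (vec n c) = bq (wtm n M) (fv n (vec n c)) (fv n (vec n c)) := bil_eq n M _ _

/-- The chosen code is at least as good as every sign vector. -/
private theorem B9_best {P : Prm} {r δ : ℝ} (h : Good P r δ) (he : Even n)
    (G : SimpleGraph (Fin n)) {M : List ℤ} (hA : fm n M = adjZ G)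
    (hC : Class r P.M G) : ∀ y ∈ Om (univ : Finset (Fin n)),
      bq (wtm n M) y y ≤ Phi n M (vec n (best P n M)) := by
  by_cases hn : n < P.n₀
  · intro y hy
    unfold best
    rw [if_pos hn]
    exact brute_opt hy
  · have hn' : P.n₀ ≤ n := not_lt.1 hn
    have hne : (Om (univ : Finset (Fin n))).Nonempty := ⟨_, vec_mem n 0⟩
    obtain ⟨x, hx, hmax⟩ := Finset.exists_max_image (Om (univ : Finset (Fin n)))
      (fun y => bq (wtm n M) y y) hne
    have hMn : 60 ≤ P.M := le_trans (by norm_num) h.M100
    have key : bq (wtm n M) x x ≤ Phi n M (vec n (best1 P n M)) ∨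
        bq (wtm n M) x x ≤ Phi n M (vec n (best2 n M)) := by
      obtain ⟨H, ⟨hH, hE⟩ | ⟨hH, hG'⟩⟩ := hC
      · have hH60 : 60 * H.card ≤ n := by
          have : H.card * 60 ≤ H.card * P.M := Nat.mul_le_mul_left _ hMn
          omega
        rcases hE with hE | hE
        · by_cases hb : subG G H = ⊥
          · exact Or.inr (best2_opt h hn' he G hA hH60 (Or.inl hb) hx hmax)
          · exact Or.inl (best1_opt h hn' G hA hH (Or.inl rfl) hE hb hx hmax)
        · by_cases hb : subG Gᶜ H = ⊥
          · exact Or.inr (best2_opt h hn' he G hA hH60 (Or.inr hb) hx hmax)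
          · exact Or.inl (best1_opt h hn' G hA hH (Or.inr rfl) hE hb hx hmax)
      · exact Or.inr (best2_opt h hn' he G hA hH hG' hx hmax)
    intro y hy
    refine (hmax y hy).trans ?_
    unfold best
    rw [if_neg hn]
    split_ifs with hle
    · rcases key with hk | hk
      · exact hk
      · exact hk.trans hle
    · rcases key with hk | hk
      · exact hk.trans (not_le.1 hle).le
      · exact hk

/-- The result is correct. PROOF. For `n < n₀`: `brute_opt`. Otherwise: a maximum `x` of `bq W` over `Om univ` exists (finite, not empty); by `best1_opt` or `best2_opt` (if `G' = ⊥` in the first case of the class use the second: `P.M ≥ 60`)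
the better of the two is a maximum, so `best` is a maximum, and `min_of_max` for the set of its digits `1` (`vec_mem`, `fv (vec ..) v = 2 bit - 1`). The entry `v` of `out` is the digit. -/
theorem out_correct {P : Prm} {r δ : ℝ} (h : Good P r δ) (he : Even n)
    (G : SimpleGraph (Fin n)) {M : List ℤ} (hA : fm n M = adjZ G)
    (hC : Class r P.M G) :
    IsMinBisection G (univ.filter fun v : Fin n => gt (out P n M) v = 1) := by
  have hbest := B9_best h he G hA hC
  rw [B9_Phi] at hbest
  have hout : ∀ v : Fin n, gt (out P n M) v = (bit (best P n M) v : ℤ) := fun v =>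
    fv_tb n (fun v => (bit (best P n M) v : ℤ)) v
  have hvec : ∀ v : Fin n, fv n (vec n (best P n M)) v = 2 * (bit (best P n M) v : ℤ) - 1 :=
    fun v => fv_tb n (fun v => 2 * (bit (best P n M) v : ℤ) - 1) v
  have hbit : ∀ v : ℕ, bit (best P n M) v < 2 := fun v => Nat.mod_lt _ (by norm_num)
  have hX : fv n (vec n (best P n M)) = fun v : Fin n =>
      if v ∈ (univ.filter fun v : Fin n => gt (out P n M) v = 1) then 1 else -1 := by
    funext v
    rw [hvec]
    simp only [mem_filter, mem_univ, true_and, hout]
    have := hbit v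
    interval_cases hb : bit (best P n M) v <;> simp
  rw [hX] at hbest
  exact min_of_max he G hA hbest

end Pool.Agent.MPa9445a.BE
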