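import Pool.Agent.Lib.MP_a9445a_lc.BE.Cls

/-! Graphs of bounded average degree. -/

set_option autoImplicit false

open Finset

namespace Pool.Agent.MPa9445a.BE

variable {n : ℕ}

/-- A vector with two coordinates. -/
private noncomputable def ClsD_u (a b : Fin n) (α β : ℝ) (v : Fin n) : ℝ :=
  if v = a then α else if v = b then β else 0

private theorem ClsD_sum (a b : Fin n) (hab : a ≠ b) (α β : ℝ) (f : Fin n → ℝ) :
    ∑ v, f v * ClsD_u a b α β v = f a * α + f b * β := by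
  have h : ∀ v, f v * ClsD_u a b α β v =
      (if v = a then f v * α else 0) + (if v = b then f v * β else 0) := by
    intro v
    unfold ClsD_u
    by_cases h1 : v = a
    · subst h1
      rw [if_pos rfl, if_pos rfl, if_neg hab, add_zero]
    · rw [if_neg h1, if_neg h1, zero_add]
      by_cases h2 : v = b
      · rw [if_pos h2, if_pos h2]
      · rw [if_neg h2, if_neg h2, mul_zero]
  rw [Finset.sum_congr rfl fun v _ => h v, Finset.sum_add_distrib]
  simp

private theorem ClsD_a (a b : Fin n) (α β : ℝ) : ClsD_u a b α β a = α := by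
  simp [ClsD_u]

private theorem ClsD_b (a b : Fin n) (hab : a ≠ b) (α β : ℝ) : ClsD_u a b α β b = β := by
  simp [ClsD_u, hab.symm]

private theorem ClsD_o (a b v : Fin n) (ha : v ≠ a) (hb : v ≠ b) (α β : ℝ) :
    ClsD_u a b α β v = 0 := by
  simp [ClsD_u, ha, hb]

/-- A matching with as many edges as possible. -/
private theorem ClsD_matching (G : SimpleGraph (Fin n)) :
    ∃ T : Finset (Fin n × Fin n), (∀ e ∈ T, G.Adj e.1 e.2) ∧
      (∀ e ∈ T, ∀ f ∈ T, e ≠ f → e.1 ≠ f.1 ∧ e.1 ≠ f.2 ∧ e.2 ≠ f.1 ∧ e.2 ≠ f.2) ∧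
      subG G (T.image Prod.fst ∪ T.image Prod.snd) = ⊥ := by
  classical
  obtain ⟨T, hT, hmax⟩ := Finset.exists_max_image
    ((univ : Finset (Finset (Fin n × Fin n))).filter (fun T => (∀ e ∈ T, G.Adj e.1 e.2) ∧
      (∀ e ∈ T, ∀ f ∈ T, e ≠ f → e.1 ≠ f.1 ∧ e.1 ≠ f.2 ∧ e.2 ≠ f.1 ∧ e.2 ≠ f.2)))
    Finset.card ⟨∅, by simp⟩
  obtain ⟨h1, h2⟩ := (Finset.mem_filter.mp hT).2
  refine ⟨T, h1, h2, ?_⟩
  ext u v
  simp only [subG, SimpleGraph.bot_adj, iff_false, not_and, not_not]
  intro huv hu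
  by_contra hv
  have hu' : ∀ e ∈ T, u ≠ e.1 ∧ u ≠ e.2 := by
    intro e he
    refine ⟨fun h => hu ?_, fun h => hu ?_⟩
    · exact Finset.mem_union_left _ (Finset.mem_image.mpr ⟨e, he, h.symm⟩)
    · exact Finset.mem_union_right _ (Finset.mem_image.mpr ⟨e, he, h.symm⟩)
  have hv' : ∀ e ∈ T, v ≠ e.1 ∧ v ≠ e.2 := by
    intro e he
    refine ⟨fun h => hv ?_, fun h => hv ?_⟩
    · exact Finset.mem_union_left _ (Finset.mem_image.mpr ⟨e, he, h.symm⟩)
    · exact Finset.mem_union_right _ (Finset.mem_image.mpr ⟨e, he, h.symm⟩)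
  have hnot : (u, v) ∉ T := fun h => (hu' _ h).1 rfl
  have hins : insert (u, v) T ∈ (univ : Finset (Finset (Fin n × Fin n))).filter
      (fun T => (∀ e ∈ T, G.Adj e.1 e.2) ∧
      (∀ e ∈ T, ∀ f ∈ T, e ≠ f → e.1 ≠ f.1 ∧ e.1 ≠ f.2 ∧ e.2 ≠ f.1 ∧ e.2 ≠ f.2)) := by
    refine Finset.mem_filter.mpr ⟨Finset.mem_univ _, ?_, ?_⟩
    · intro e he
      rcases Finset.mem_insert.mp he with rfl | he
      · exact huv
      · exact h1 e he
    · intro e he f hf hne
      rcases Finset.mem_insert.mp he with rfl | he <;> rcases Finset.mem_insert.mp hf with rfl | hf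
      · exact absurd rfl hne
      · exact ⟨(hu' f hf).1, (hu' f hf).2, (hv' f hf).1, (hv' f hf).2⟩
      · exact ⟨(hu' e he).1.symm, (hv' e he).1.symm, (hu' e he).2.symm, (hv' e he).2.symm⟩
      · exact h2 e he f hf hne
  have := hmax _ hins
  rw [Finset.card_insert_of_notMem hnot] at this
  omega

open scoped Classical in
private theorem ClsD_energy (G : SimpleGraph (Fin n)) (T : Finset (Fin n × Fin n))
    (h1 : ∀ e ∈ T, G.Adj e.1 e.2)
    (h2 : ∀ e ∈ T, ∀ f ∈ T, e ≠ f → e.1 ≠ f.1 ∧ e.1 ≠ f.2 ∧ e.2 ≠ f.1 ∧ e.2 ≠ f.2) :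
    2 * (T.card : ℝ) ≤ gen G := by
  set c : ℝ := Real.sqrt 2 / 2 with hc
  have hcc : c * c = 1 / 2 := by
    have := Real.mul_self_sqrt (show (0 : ℝ) ≤ 2 by norm_num)
    rw [hc]; nlinarith
  let sg : Bool → ℝ := fun b => if b then 1 else -1
  have hsg : ∀ b, sg b * sg b = 1 := by intro b; cases b <;> simp [sg]
  let u : T × Bool → Fin n → ℝ := fun i => ClsD_u i.1.1.1 i.1.1.2 c (sg i.2 * c)
  have hne : ∀ e : T, e.1.1 ≠ e.1.2 := fun e => (h1 e.1 e.2).ne
  have key := energy_ge (adjR_herm G) (ι := T × Bool) u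
    (fun i => by
      show ∑ v, ClsD_u i.1.1.1 i.1.1.2 c (sg i.2 * c) v * ClsD_u i.1.1.1 i.1.1.2 c (sg i.2 * c) v = 1
      rw [ClsD_sum _ _ (hne i.1), ClsD_a, ClsD_b _ _ (hne i.1)]
      have := hsg i.2
      calc c * c + sg i.2 * c * (sg i.2 * c) = c * c + (sg i.2 * sg i.2) * (c * c) := by ring
        _ = 1 := by rw [this, hcc]; norm_num)
    (fun i j hij => by
      show ∑ v, ClsD_u i.1.1.1 i.1.1.2 c (sg i.2 * c) v * ClsD_u j.1.1.1 j.1.1.2 c (sg j.2 * c) v = 0
      rw [ClsD_sum _ _ (hne j.1)]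
      by_cases he : i.1 = j.1
      · have hs : i.2 ≠ j.2 := fun h => hij (Prod.ext he h)
        rw [he, ClsD_a, ClsD_b _ _ (hne j.1)]
        have : sg i.2 * sg j.2 = -1 := by
          revert hs
          cases i.2 <;> cases j.2 <;> simp [sg]
        calc c * c + sg i.2 * c * (sg j.2 * c) = c * c + (sg i.2 * sg j.2) * (c * c) := by ring
          _ = 0 := by rw [this]; ring
      · have he' : j.1.1 ≠ i.1.1 := fun h => he (Subtype.ext h.symm)
        obtain ⟨k1, k2, k3, k4⟩ := h2 _ j.1.2 _ i.1.2 he'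
        rw [ClsD_o _ _ _ k1 k2, ClsD_o _ _ _ k3 k4]
        ring)
  have hval : ∀ i : T × Bool, |∑ v, ∑ w, adjR G v w * u i v * u i w| = 1 := by
    intro i
    have hadj : G.Adj i.1.1.1 i.1.1.2 := h1 i.1.1 i.1.2
    have e1 : ∑ v, ∑ w, adjR G v w * u i v * u i w =
        ∑ v, (adjR G v i.1.1.1 * c + adjR G v i.1.1.2 * (sg i.2 * c)) * u i v := by
      refine Finset.sum_congr rfl fun v _ => ?_
      have := ClsD_sum i.1.1.1 i.1.1.2 (hne i.1) c (sg i.2 * c) (fun w => adjR G v w * u i v)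
      calc ∑ w, adjR G v w * u i v * u i w
          = adjR G v i.1.1.1 * u i v * c + adjR G v i.1.1.2 * u i v * (sg i.2 * c) := this
        _ = (adjR G v i.1.1.1 * c + adjR G v i.1.1.2 * (sg i.2 * c)) * u i v := by ring
    have e2 : ∑ v, (adjR G v i.1.1.1 * c + adjR G v i.1.1.2 * (sg i.2 * c)) * u i v = sg i.2 := by
      have := ClsD_sum i.1.1.1 i.1.1.2 (hne i.1) c (sg i.2 * c)
        (fun v => adjR G v i.1.1.1 * c + adjR G v i.1.1.2 * (sg i.2 * c))
      refine this.trans ?_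
      simp only [adjR, if_pos hadj, if_pos hadj.symm, SimpleGraph.irrefl, if_false]
      calc (0 * c + 1 * (sg i.2 * c)) * c + (1 * c + 0 * (sg i.2 * c)) * (sg i.2 * c)
          = 2 * sg i.2 * (c * c) := by ring
        _ = sg i.2 := by rw [hcc]; ring
    rw [e1, e2]
    cases i.2 <;> simp [sg]
  rw [Finset.sum_congr rfl fun i _ => hval i] at key
  have hcard : (∑ _i : T × Bool, (1 : ℝ)) = 2 * T.card := by
    rw [Finset.sum_const, Finset.card_univ, Fintype.card_prod, Fintype.card_bool,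
      Fintype.card_coe]
    simp [mul_comm]
  rw [hcard] at key
  exact key

/-- PROOF. Let `e₁, …, e_k` be the edges of a maximal matching. If `60 (2 k) ≤ n` let `H` be the set of its vertices: `subG G H = ⊥` (maximality). Otherwise
`energy_ge` for the vectors `(1_a + 1_b) / √2`, `(1_a - 1_b) / √2` of the edges `a b`: the energy is at least `2 k > n / 60` (the coefficients are `1` and `-1`), and `2 ne G ≤ D n`, so
`r √(2 m n) ≤ r √D n ≤ n / 60` for `r = 1 / (60 √(D + 1))`. `H = ∅`, `subG G ∅ = G`. (Existence of a maximal matching: a list or a finset of disjoint edges of maximal cardinality, or: a set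
`T` of pairs maximal among the finsets of pairs `(a, b)` of adjacent vertices which are pairwise disjoint.) -/
theorem Class_of_degree {D : ℝ} (hD : 0 ≤ D) (M : ℕ) (G : SimpleGraph (Fin n))
    (h : 2 * (ne G : ℝ) ≤ D * n) : Class (1 / (60 * Real.sqrt (D + 1))) M G := by
  classical
  obtain ⟨T, h1, h2, h3⟩ := ClsD_matching G
  by_cases hT : 60 * (2 * T.card) ≤ n
  · refine ⟨T.image Prod.fst ∪ T.image Prod.snd, Or.inr ⟨?_, Or.inl h3⟩⟩
    have hc : (T.image Prod.fst ∪ T.image Prod.snd).card ≤ 2 * T.card := by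
      refine (Finset.card_union_le _ _).trans ?_
      have := Finset.card_image_le (s := T) (f := Prod.fst)
      have := Finset.card_image_le (s := T) (f := Prod.snd)
      omega
    omega
  · refine ⟨∅, Or.inl ⟨by simp, Or.inl ?_⟩⟩
    have hG : subG G ∅ = G := by
      ext u v
      simp [subG]
    rw [hG]
    unfold Energetic
    have hE := ClsD_energy G T h1 h2
    have hT' : (n : ℝ) ≤ 60 * (2 * T.card) := by
      have : n ≤ 60 * (2 * T.card) := by omega
      exact_mod_cast this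
    have hs : 0 < Real.sqrt (D + 1) := Real.sqrt_pos.mpr (by linarith)
    have hn : (0 : ℝ) ≤ n := Nat.cast_nonneg _
    have hle : Real.sqrt (2 * ne G * n) ≤ Real.sqrt (D + 1) * n := by
      have h5 : 2 * (ne G : ℝ) * n ≤ (D + 1) * ((n : ℝ) ^ 2) := by
        calc 2 * (ne G : ℝ) * n ≤ D * n * n := mul_le_mul_of_nonneg_right h hn
          _ ≤ (D + 1) * ((n : ℝ) ^ 2) := by nlinarith [mul_nonneg hn hn]
      calc Real.sqrt (2 * ne G * n) ≤ Real.sqrt ((D + 1) * ((n : ℝ) ^ 2)) := Real.sqrt_le_sqrt h5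
        _ = Real.sqrt (D + 1) * n := by
          rw [Real.sqrt_mul (by linarith), Real.sqrt_sq hn]
    calc 1 / (60 * Real.sqrt (D + 1)) * Real.sqrt (2 * ne G * n)
        ≤ 1 / (60 * Real.sqrt (D + 1)) * (Real.sqrt (D + 1) * n) :=
          mul_le_mul_of_nonneg_left hle (by positivity)
      _ = n / 60 := by field_simp
      _ ≤ 2 * T.card := by linarith
      _ ≤ gen G := hE

end Pool.Agent.MPa9445a.BE
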