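import Pool.Agent.Lib.MP_a9445a_lc.BE.O2

/-! The theorem on kept vectors. -/

set_option autoImplicit false

open Finset

namespace Pool.Agent.MPa9445a.BE

open scoped Classical in
/-- Few vectors are kept, and the optimum is kept. -/
theorem math_main {r : ℝ} (hr : 0 < r) :
    ∃ (p : Par) (δ : ℝ) (n₀ : ℕ), 0 < δ ∧ δ < 1 ∧ ∀ n : ℕ, n₀ ≤ n →
      (∀ S : Matrix (Fin n) (Fin n) ℤ, Mat S → ∀ b : Fin n → ℤ, (∀ v, |b v| ≤ n) →
        ∀ Y : Finset (Fin n), (((Om Y).filter fun x => Kp p S b Y x).card : ℝ) ≤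
          (2 : ℝ) ^ ((Y.card : ℝ) - δ * n)) ∧
      (∀ S : Matrix (Fin n) (Fin n) ℤ, ∀ hS : Mat S, 0 < D2 S →
        ∀ b : Fin n → ℤ, ∀ U : Finset (Fin n), (∀ v, v ∉ U → ∀ u, S v u = 0) →
        r * Real.sqrt (D2 S * n) ≤ energy (isHermitian_rl hS) → ∀ x ∈ Om U,
        (∀ y ∈ Om U, ∑ v, y v = ∑ v, x v → qf S y + lf b y ≤ qf S x + lf b x) →
        ∀ k : Fin n → Fin 8, ∃ i j, Kp p S b (U ∩ bk k i j) (rs (bk k i j) x)) := by
  obtain ⟨m, hm⟩ := exists_nat_gt (1 / r)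
  have hm0 : 0 < m := by
    rcases Nat.eq_zero_or_pos m with h | h
    · subst h; simp at hm; linarith
    · exact h
  have hmR : (0 : ℝ) < m := by exact_mod_cast hm0
  have hc0 : 0 < c3 m := by unfold c3; positivity
  have hc1 : c3 m ≤ 1 := by
    unfold c3
    rw [div_le_one (by positivity)]
    have : (1 : ℝ) ≤ m := by exact_mod_cast hm0
    have h3 : (1 : ℝ) ≤ (m : ℝ) ^ 3 := one_le_pow₀ this
    nlinarith
  obtain ⟨K, p, q, θ, h₀, hK, hp, hq, hθ, hh, h3, h1, h2, h4⟩ := constants hc0 hc1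
  obtain ⟨δ, hδ, hδ1, n₁, hn1⟩ := thin_par m K p q hm0 hK hp hq hθ hh h3 h1 h2 h4
  obtain ⟨n₂, hn2⟩ := opt_par m K p q hm0 hK hq h1 h2
  refine ⟨par m K p q hm0 hq, δ, max n₁ n₂, hδ, hδ1, fun n hn => ⟨?_, ?_⟩⟩
  · exact hn1 n (le_trans (le_max_left _ _) hn)
  · intro S hS hD b U hU hE x hx hmax k
    refine hn2 n (le_trans (le_max_right _ _) hn) S hS hD b U hU (le_trans ?_ hE) x hx hmax k
    refine mul_le_mul_of_nonneg_right ?_ (Real.sqrt_nonneg _)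
    rw [div_le_iff₀ hmR]
    rw [div_lt_iff₀ hr] at hm
    linarith
end Pool.Agent.MPa9445a.BE
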