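import Pool.Agent.Lib.MP_a9445a_lc.BE.B9
import Pool.Agent.Lib.MP_a9445a_lc.BE.B7b
import Pool.Agent.Lib.MP_a9445a_lc.BE.B10
import Pool.Agent.Lib.MP_a9445a_lc.BE.Z1

/-! The theorem. -/

set_option autoImplicit false

open Finset

namespace Pool.Agent.MPa9445a.BE

open scoped Classical in
/-- The input: the adjacency matrix, row by row. -/
noncomputable def arrG {n : ℕ} (G : SimpleGraph (Fin n)) : List ℤ :=
  (List.range (n * n)).map fun x =>
    if ∃ u v : Fin n, x = (u : ℕ) * n + v ∧ G.Adj u v then 1 else 0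

private theorem Fin_inj {n a b c d : ℕ} (hb : b < n) (hd : d < n)
    (h : a * n + b = c * n + d) : a = c ∧ b = d := by
  have hn : 0 < n := by omega
  have h1 : (a * n + b) / n = a := by
    rw [Nat.mul_comm, Nat.mul_add_div hn, Nat.div_eq_of_lt hb, Nat.add_zero]
  have h2 : (c * n + d) / n = c := by
    rw [Nat.mul_comm, Nat.mul_add_div hn, Nat.div_eq_of_lt hd, Nat.add_zero]
  have h3 : a = c := by rw [← h1, ← h2, h]
  subst h3
  exact ⟨rfl, by omega⟩

private theorem Fin_asz {l : List ℤ} {M : ℕ} (h : ∀ x ∈ l, sz x ≤ M) : asz l ≤ M := by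
  induction l with
  | nil => exact Nat.zero_le _
  | cons x l ih =>
    have h1 : asz (x :: l) = max (sz x) (asz l) := rfl
    rw [h1]
    exact max_le (h x (by simp)) (ih fun y hy => h y (by simp [hy]))

open scoped Classical in
/-- PROOF. `u * n + v` determines `u` and `v` (`v < n`). -/
theorem fm_arrG {n : ℕ} (G : SimpleGraph (Fin n)) : fm n (arrG G) = adjZ G := by
  ext u v
  have hlt : (u : ℕ) * n + v < n * n := by
    have h1 := u.isLt
    have h2 := v.isLt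
    have h3 : (u : ℕ) + 1 ≤ n := h1
    have h4 : ((u : ℕ) + 1) * n ≤ n * n := Nat.mul_le_mul_right n h3
    have h5 : ((u : ℕ) + 1) * n = (u : ℕ) * n + n := by ring
    omega
  have hiff : (∃ u' v' : Fin n, (u : ℕ) * n + v = (u' : ℕ) * n + v' ∧ G.Adj u' v') ↔ G.Adj u v := by
    constructor
    · rintro ⟨u', v', h1, h2⟩
      obtain ⟨h3, h4⟩ := Fin_inj v.isLt v'.isLt h1
      have h5 : u = u' := Fin.ext h3
      have h6 : v = v' := Fin.ext h4
      rw [h5, h6]
      exact h2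
    · intro h
      exact ⟨u, v, rfl, h⟩
  have hget : gt (arrG G) ((u : ℕ) * n + v) =
      if ∃ u' v' : Fin n, (u : ℕ) * n + v = (u' : ℕ) * n + v' ∧ G.Adj u' v' then 1 else 0 := by
    unfold arrG gt
    rw [List.getD_eq_getElem?_getD, List.getElem?_map, List.getElem?_range hlt]
    rfl
  show gt (arrG G) ((u : ℕ) * n + v) = if G.Adj u v then 1 else 0
  rw [hget]
  by_cases h : G.Adj u v
  · rw [if_pos (hiff.2 h), if_pos h]
  · rw [if_neg (fun h' => h (hiff.1 h')), if_neg h]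

/-- PROOF. The entries are `0` or `1`, the length is `n * n`. -/
theorem vs_arrG {n : ℕ} (G : SimpleGraph (Fin n)) : vs (t := .arr) (arrG G) ≤ (n + 2) ^ 3 := by
  show asz (arrG G) + Nat.size (arrG G).length ≤ _
  have h1 : asz (arrG G) ≤ 1 := by
    apply Fin_asz
    intro x hx
    unfold arrG at hx
    rw [List.mem_map] at hx
    obtain ⟨y, _, rfl⟩ := hx
    unfold sz
    split_ifs
    · simp
    · simp
  have h2 : (arrG G).length = n * n := by
    unfold arrG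
    rw [List.length_map, List.length_range]
  have h3 : Nat.size (n * n) ≤ n * n := Nat.size_le.2 Nat.lt_two_pow_self
  rw [h2]
  have h4 : (n + 2) ^ 3 = n * n * n + 6 * (n * n) + 12 * n + 8 := by ring
  omega

/-- Good parameters exist. PROOF. `math_main` gives `p`, `δ`, `n₁`; `m = max 100 ⌈3 / δ⌉`, `b = 18 m`, `M` from `splM b`, `n₀` the maximum of `100`, `n₁` and the bounds of `splM`, `spl60`, `n4_bound`. -/
theorem exists_good {r : ℝ} (hr : 0 < r) : ∃ (P : Prm) (δ : ℝ), Good P r δ := by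
  obtain ⟨p, δ, n₁, hδ, _, hmain⟩ := math_main hr
  obtain ⟨m₀, hm₀⟩ := exists_nat_ge (3 / δ)
  obtain ⟨M, hM100, n₂, hn₂⟩ := splM (18 * max 100 m₀) (by positivity)
  obtain ⟨n₃, hn₃⟩ := spl60
  obtain ⟨n₄, hn₄⟩ := n4_bound (18 * max 100 m₀) (by positivity)
  refine ⟨⟨p, max 100 m₀, M, 18 * max 100 m₀, 100 + n₁ + n₂ + n₃ + n₄⟩, δ, ?_⟩
  refine ⟨le_max_left _ _, hM100, ?_, le_refl _, ?_, ?_, ?_, ?_, ?_, ?_⟩
  · show 100 ≤ 100 + n₁ + n₂ + n₃ + n₄
    omega
  · show 3 ≤ δ * ((max 100 m₀ : ℕ) : ℝ)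
    rw [div_le_iff₀ hδ] at hm₀
    have h1 : (m₀ : ℝ) ≤ ((max 100 m₀ : ℕ) : ℝ) := by exact_mod_cast le_max_right 100 m₀
    nlinarith
  · intro n hn
    have hn' : 100 + n₁ + n₂ + n₃ + n₄ ≤ n := hn
    exact (hmain n (by omega)).1
  · intro n hn
    have hn' : 100 + n₁ + n₂ + n₃ + n₄ ≤ n := hn
    exact (hmain n (by omega)).2
  · intro n hn
    have hn' : 100 + n₁ + n₂ + n₃ + n₄ ≤ n := hn
    exact hn₃ n (by omega)
  · intro n hn
    have hn' : 100 + n₁ + n₂ + n₃ + n₄ ≤ n := hn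
    exact hn₂ n (by omega)
  · intro n hn
    have hn' : 100 + n₁ + n₂ + n₃ + n₄ ≤ n := hn
    exact hn₄ n (by omega)

theorem main_thm {r : ℝ} (hr : 0 < r) :
    ∃ (δ : ℝ) (M : ℕ) (e : Ex [.int, .arr] .arr), 0 < δ ∧ 0 < M ∧
      (∀ τ : ℝ, 2 ≤ τ → ∃ C : ℝ, ∀ (n : ℕ) (G : SimpleGraph (Fin n)),
        e.cost τ ((n : ℤ), arrG G, ()) ≤ C * 2 ^ ((τ / 3 - δ) * n)) ∧
      ∀ n : ℕ, Even n → ∀ G : SimpleGraph (Fin n), Class r M G →
        IsMinBisection G (univ.filter fun v : Fin n =>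
          nth (e.eval ((n : ℤ), arrG G, ())) (v : ℕ) = 1) := by
  obtain ⟨P, δ, hP⟩ := exists_good hr
  have h1 : Cp Prod.fst (fun a : Gr => ∃ G : SimpleGraph (Fin a.1), a.2 = arrG G)
      (Γ := [.int, .arr]) (fun a => ((a.1 : ℤ), a.2, ())) (wf P) .arr
      (fun a => out P a.1 a.2) := by
    refine c_out P hP.m100 ?_ ?_
    · exact Cp.top (t := .int) (f := fun a : Gr => (a.1 : ℤ)) ((Bd.self).size)
    · refine Cp.wk (s := .int) (g := fun a : Gr => (a.1 : ℤ)) ?_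
      refine Cp.top (t := .arr) (f := fun a : Gr => a.2) ⟨3, ?_⟩
      intro a ha
      obtain ⟨G, hG⟩ := ha
      show vs (t := .arr) a.2 ≤ _
      rw [hG]
      exact vs_arrG G
  obtain ⟨e, k, he⟩ := h1
  have hm0 : (0 : ℝ) < P.m := by
    have := hP.m100
    have h2 : (100 : ℝ) ≤ P.m := by exact_mod_cast this
    linarith
  refine ⟨1 / P.m, P.M, e, by positivity, by have := hP.M100; omega, ?_, ?_⟩
  · intro τ hτ
    obtain ⟨C, hC⟩ := time_bound P hP.m100 hP.b0 k hτ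
    refine ⟨C, fun n G => ?_⟩
    exact ((he (n, arrG G) ⟨G, rfl⟩).2.2 τ hτ).2.trans (hC n (arrG G))
  · intro n hn G hC
    have h2 := out_correct hP hn G (fm_arrG G) hC
    have h3 := (he (n, arrG G) ⟨G, rfl⟩).1
    simp only at h3
    rw [h3]
    simpa only [nth_nat] using h2

end Pool.Agent.MPa9445a.BE
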