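import Pool.Agent.Lib.MP_a9445a_lc.Mg.G113
import Pool.Agent.Lib.MP_a9445a_lc.Mg.G118

/-! Few vectors are kept: the choice of the parameters. -/

set_option autoImplicit false

open Finset

namespace Pool.Agent.MPa9445a.BE

/-- The parameters: `c₃ = 1 / (10 ^ 6 m ^ 3)`, radius `(c₃² K⁴ / 256) D₂³ / n²`, threshold `c₃ √(D₂ n)`, exponent `p n / q`. -/
def par (m K p q : ℕ) (hm : 0 < m) (hq : 0 < q) : Par where
  p1 := K ^ 4
  q1 := 256 * (10 ^ 6 * m ^ 3) ^ 2
  p2 := 1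
  q2 := (10 ^ 6 * m ^ 3) ^ 2
  p3 := p
  q3 := q
  q1pos := by positivity
  q2pos := by positivity
  q3pos := hq

/-- `c₃` -/
noncomputable def c3 (m : ℕ) : ℝ := 1 / (10 ^ 6 * (m : ℝ) ^ 3)

/-- PROOF. Exponentials beat polynomials. -/
theorem small_sum {a b : ℝ} (ha : 0 < a) (hb : 0 < b) :
    ∃ δ : ℝ, 0 < δ ∧ δ < 1 ∧ ∃ n₀ : ℕ, ∀ n : ℕ, n₀ ≤ n →
      2 * (2 * n + 1) * (2 * n ^ 2 + 1) * Real.exp (-a * n) + 2 * Real.exp (-b * n) ≤
        (2 : ℝ) ^ (-(δ * n)) := by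
  set m : ℝ := min a b with hm
  have hm0 : 0 < m := lt_min ha hb
  have hma : m ≤ a := min_le_left a b
  have hmb : m ≤ b := min_le_right a b
  have hd1 : min (1 / 2) (m / 2) ≤ 1 / 2 := min_le_left _ _
  have hd2 : min (1 / 2) (m / 2) ≤ m / 2 := min_le_right _ _
  have hd0 : 0 < min (1 / 2) (m / 2) := lt_min (by norm_num) (by linarith)
  refine ⟨min (1 / 2) (m / 2), hd0, by linarith, ⌈7680 / m ^ 4⌉₊ + 1, fun n hn => ?_⟩
  have hn1 : (1 : ℝ) ≤ n := by
    have : 1 ≤ n := by omega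
    exact_mod_cast this
  have hn2 : 7680 / m ^ 4 ≤ n := by
    have h1 : ⌈7680 / m ^ 4⌉₊ ≤ n := by omega
    exact (Nat.le_ceil _).trans (by exact_mod_cast h1)
  have hn3 : 7680 ≤ m ^ 4 * n := by
    rw [div_le_iff₀ (by positivity)] at hn2
    linarith
  -- the right-hand side
  have h2 : Real.exp (-(m / 2 * n)) ≤ (2 : ℝ) ^ (-(min (1 / 2) (m / 2) * (n : ℝ))) := by
    rw [Real.rpow_def_of_pos (by norm_num : (0 : ℝ) < 2)]
    apply Real.exp_le_exp.mpr
    have hl : Real.log 2 ≤ 1 := by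
      have := Real.log_two_lt_d9
      linarith
    have hl0 : 0 ≤ Real.log 2 := Real.log_nonneg (by norm_num)
    have h3 : Real.log 2 * (min (1 / 2) (m / 2) * n) ≤ 1 * (m / 2 * n) :=
      mul_le_mul hl (mul_le_mul_of_nonneg_right hd2 (by linarith)) (by positivity) (by norm_num)
    nlinarith
  refine le_trans ?_ h2
  -- exponentials
  have e1 : Real.exp (-a * n) ≤ Real.exp (-(m * n)) :=
    Real.exp_le_exp.mpr (by nlinarith)
  have e2 : Real.exp (-b * n) ≤ Real.exp (-(m * n)) :=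
    Real.exp_le_exp.mpr (by nlinarith)
  have e3 : Real.exp (-(m * n)) = Real.exp (-(m / 2 * n)) * Real.exp (-(m / 2 * n)) := by
    rw [← Real.exp_add]
    congr 1
    ring
  have e4 : (2 * (2 * (n : ℝ) + 1) * (2 * n ^ 2 + 1) + 2) ≤ Real.exp (m / 2 * n) := by
    have h3 := Real.pow_div_factorial_le_exp (m / 2 * n) (by positivity) 4
    refine le_trans ?_ h3
    have h4 : ((Nat.factorial 4 : ℕ) : ℝ) = 24 := by norm_num [Nat.factorial]
    rw [h4, le_div_iff₀ (by norm_num)]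
    have h5 : (m / 2 * n) ^ 4 = (m ^ 4 * n) * n ^ 3 / 16 := by ring
    rw [h5]
    have hn0 : (0 : ℝ) ≤ n := by linarith
    have h6 : (7680 : ℝ) * n ^ 3 ≤ (m ^ 4 * n) * n ^ 3 :=
      mul_le_mul_of_nonneg_right hn3 (by positivity)
    have h7 : (2 * (2 * (n : ℝ) + 1) * (2 * n ^ 2 + 1) + 2) ≤ 20 * n ^ 3 := by
      have h8 : (n : ℝ) ≤ n ^ 3 := by
        have := pow_le_pow_right₀ hn1 (show 1 ≤ 3 by norm_num)
        simpa using this
      have h9 : (n : ℝ) ^ 2 ≤ n ^ 3 := pow_le_pow_right₀ hn1 (by norm_num)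
      have h10 : (1 : ℝ) ≤ n ^ 3 := one_le_pow₀ hn1
      nlinarith
    nlinarith
  have e5 : Real.exp (m / 2 * n) * Real.exp (-(m / 2 * n)) = 1 := by
    rw [← Real.exp_add]
    simp
  have hE : 0 < Real.exp (-(m / 2 * n)) := Real.exp_pos _
  have hM : 0 < Real.exp (-(m * n)) := Real.exp_pos _
  calc 2 * (2 * (n : ℝ) + 1) * (2 * n ^ 2 + 1) * Real.exp (-a * n) + 2 * Real.exp (-b * n)
      ≤ 2 * (2 * (n : ℝ) + 1) * (2 * n ^ 2 + 1) * Real.exp (-(m * n)) +
          2 * Real.exp (-(m * n)) := by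
        refine add_le_add (mul_le_mul_of_nonneg_left e1 (by positivity)) ?_
        linarith
    _ = (2 * (2 * (n : ℝ) + 1) * (2 * n ^ 2 + 1) + 2) *
          (Real.exp (-(m / 2 * n)) * Real.exp (-(m / 2 * n))) := by
        rw [e3]
        ring
    _ ≤ Real.exp (m / 2 * n) * (Real.exp (-(m / 2 * n)) * Real.exp (-(m / 2 * n))) :=
        mul_le_mul_of_nonneg_right e4 (by positivity)
    _ = Real.exp (-(m / 2 * n)) := by
        rw [← mul_assoc, e5, one_mul]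

private theorem T3_sqrt {n : ℕ} (hn : 0 < n) {D : ℝ} (hD : 0 < D) :
    Real.sqrt (D / n) = Real.sqrt (D * n) / n := by
  have hn' : (0 : ℝ) < n := by exact_mod_cast hn
  rw [eq_div_iff hn'.ne']
  have h1 : (n : ℝ) = Real.sqrt (n ^ 2) := (Real.sqrt_sq hn'.le).symm
  conv_lhs => rw [h1]
  rw [← Real.sqrt_mul (by positivity)]
  congr 1
  have hs : Real.sqrt ((n : ℝ) ^ 2) = n := Real.sqrt_sq hn'.le
  rw [hs]
  field_simp

private theorem T3_R {n : ℕ} (m K p q : ℕ) (hm : 0 < m) (hq : 0 < q)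
    (S : Matrix (Fin n) (Fin n) ℤ) :
    (par m K p q hm hq).R S = c3 m ^ 2 * K ^ 4 / 256 * (D2 S : ℝ) ^ 3 / n ^ 2 := by
  have hm' : (m : ℝ) ≠ 0 := by exact_mod_cast hm.ne'
  unfold Par.R par c3
  push_cast
  field_simp
  ring

private theorem T3_th {n : ℕ} (m K p q : ℕ) (hm : 0 < m) (hq : 0 < q)
    (S : Matrix (Fin n) (Fin n) ℤ) (_hD : 0 ≤ (D2 S : ℝ)) :
    (par m K p q hm hq).th S = c3 m * Real.sqrt (D2 S * n) := by
  have hm' : (m : ℝ) ≠ 0 := by exact_mod_cast hm.ne'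
  have hc : 0 ≤ c3 m := by unfold c3; positivity
  have h1 : (((par m K p q hm hq).p2 : ℝ) / (par m K p q hm hq).q2) = c3 m ^ 2 := by
    unfold par c3
    push_cast
    field_simp
    norm_num
  unfold Par.th
  rw [h1, mul_assoc, Real.sqrt_mul (by positivity), Real.sqrt_sq hc]

private theorem T3_e {n : ℕ} (m K p q : ℕ) (hm : 0 < m) (hq : 0 < q) :
    (((par m K p q hm hq).e n : ℕ) : ℝ) ≤ (p : ℝ) / q * n ∧
      (p : ℝ) / q * n ≤ (((par m K p q hm hq).e n : ℕ) : ℝ) + 1 := by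
  have hq' : (0 : ℝ) < q := by exact_mod_cast hq
  unfold Par.e par
  constructor
  · have h1 : ((p * n / q : ℕ) : ℝ) ≤ ((p * n : ℕ) : ℝ) / q := Nat.cast_div_le
    refine h1.trans (le_of_eq ?_)
    push_cast
    ring
  · have h1 : p * n < (p * n / q + 1) * q := by
      have h2 := Nat.div_add_mod (p * n) q
      have h3 := Nat.mod_lt (p * n) hq
      nlinarith
    have h2 : ((p : ℝ) * n) ≤ (((p * n / q : ℕ) : ℝ) + 1) * q := by
      exact_mod_cast h1.le
    rw [div_mul_eq_mul_div, div_le_iff₀ hq']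
    exact h2

/-- The estimate of `dl` for the parameters. PROOF. `D = D2 S > 0`, `t = K √(D / n)`, `Q = √(D n)`, `R = (c₃² K⁴ / 256) D³ / n²`. `√(n R) / t² = c₃ Q / 16`,
`e ≤ p n / q`, `t e ≤ K (p / q) Q ≤ c₃ Q / 100`, `D / (4 t) = Q / (4 K) ≤ c₃ Q / 400`. So `dl ≤ (1 / 8 + 8 (7 / 10) / 100 + 1 / 400) c₃ Q`. -/
theorem dl_par {n : ℕ} (hn : 0 < n) (m K p q : ℕ) (hm : 0 < m) (hK : 0 < K) (hq : 0 < q)
    (h1 : 1 / (K : ℝ) ≤ c3 m / 100) (h2 : (K : ℝ) * (p / q) ≤ c3 m / 100)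
    (S : Matrix (Fin n) (Fin n) ℤ) (hD : 0 < D2 S) :
    dl n (D2 S) (K * Real.sqrt (D2 S / n)) ((par m K p q hm hq).R S) ((par m K p q hm hq).e n) ≤
      c3 m / 5 * Real.sqrt (D2 S * n) := by
  have hn' : (0 : ℝ) < n := by exact_mod_cast hn
  have hK' : (0 : ℝ) < K := by exact_mod_cast hK
  have hq' : (0 : ℝ) < q := by exact_mod_cast hq
  have hc : 0 < c3 m := by unfold c3; positivity
  have hD' : (0 : ℝ) < (D2 S : ℝ) := by exact_mod_cast hD
  have he := (T3_e (n := n) m K p q hm hq).1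
  rw [T3_R, T3_sqrt hn hD']
  generalize ((par m K p q hm hq).e n) = e at he ⊢
  generalize (D2 S : ℝ) = D at hD' ⊢
  set Q : ℝ := Real.sqrt (D * n) with hQ
  have hQ0 : 0 < Q := Real.sqrt_pos.mpr (by positivity)
  have hQ2 : Q ^ 2 = D * n := Real.sq_sqrt (by positivity)
  have hDQ : D = Q ^ 2 / n := by
    rw [hQ2]
    field_simp
  have h3 : Real.sqrt (n * (c3 m ^ 2 * K ^ 4 / 256 * D ^ 3 / n ^ 2)) =
      c3 m * K ^ 2 / 16 * D * (Q / n) := by
    have h4 : n * (c3 m ^ 2 * K ^ 4 / 256 * D ^ 3 / n ^ 2) =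
        (c3 m * K ^ 2 / 16 * D * (Q / n)) ^ 2 := by
      rw [mul_pow, div_pow, hQ2]
      field_simp
      ring
    rw [h4, Real.sqrt_sq (by positivity)]
  unfold dl
  rw [h3]
  have hlog : Real.log 2 ≤ 7 / 10 := by
    have := Real.log_two_lt_d9
    linarith
  have hlog0 : 0 ≤ Real.log 2 := Real.log_nonneg (by norm_num)
  have t1 : 2 * (c3 m * K ^ 2 / 16 * D * (Q / n)) / (K * (Q / n)) ^ 2 = c3 m / 8 * Q := by
    rw [hDQ]
    field_simp
    ring
  have t2 : 8 * (K * (Q / n)) * e * Real.log 2 ≤ 56 / 1000 * c3 m * Q := by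
    have h5 : (K * (Q / n)) * (e : ℝ) ≤ c3 m / 100 * Q := by
      calc (K * (Q / n)) * (e : ℝ) ≤ (K * (Q / n)) * (p / q * n) :=
            mul_le_mul_of_nonneg_left he (by positivity)
        _ = (K * (p / q)) * Q := by
            field_simp
        _ ≤ c3 m / 100 * Q := mul_le_mul_of_nonneg_right h2 hQ0.le
    calc 8 * (K * (Q / n)) * e * Real.log 2 = 8 * ((K * (Q / n)) * e) * Real.log 2 := by ring
      _ ≤ 8 * (c3 m / 100 * Q) * (7 / 10) :=
          mul_le_mul (by linarith) hlog hlog0 (by positivity)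
      _ = 56 / 1000 * c3 m * Q := by ring
  have t3 : D / (4 * (K * (Q / n))) ≤ c3 m / 400 * Q := by
    have h5 : D / (4 * (K * (Q / n))) = 1 / K * (Q / 4) := by
      rw [hDQ]
      field_simp
    rw [h5]
    calc 1 / (K : ℝ) * (Q / 4) ≤ c3 m / 100 * (Q / 4) :=
          mul_le_mul_of_nonneg_right h1 (by positivity)
      _ = c3 m / 400 * Q := by ring
  rw [t1]
  have hcQ : 0 < c3 m * Q := by positivity
  nlinarith

private theorem T3_pow {e : ℕ} {x : ℝ} (h : x ≤ e + 1) :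
    1 / (2 : ℝ) ^ e ≤ 2 * Real.exp (-(Real.log 2 * x)) := by
  have h1 : (2 : ℝ) ^ e = Real.exp (Real.log 2 * e) := by
    rw [← Real.rpow_natCast, Real.rpow_def_of_pos (by norm_num : (0 : ℝ) < 2)]
  have h2 : (2 : ℝ) = Real.exp (Real.log 2) := (Real.exp_log (by norm_num)).symm
  have hlog0 : 0 ≤ Real.log 2 := Real.log_nonneg (by norm_num)
  rw [h1, one_div, ← Real.exp_neg]
  have h3 : 2 * Real.exp (-(Real.log 2 * x)) = Real.exp (Real.log 2 + -(Real.log 2 * x)) := by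
    rw [Real.exp_add, Real.exp_log (by norm_num)]
  rw [h3]
  apply Real.exp_le_exp.mpr
  nlinarith

private theorem T3_D2 {n : ℕ} {S : Matrix (Fin n) (Fin n) ℤ} (h : D2 S = 0) : S = 0 := by
  unfold D2 at h
  have h1 := (Finset.sum_eq_zero_iff_of_nonneg (fun u _ =>
    Finset.sum_nonneg fun v _ => sq_nonneg (S u v))).mp h
  ext u v
  have h2 := (Finset.sum_eq_zero_iff_of_nonneg (fun v _ => sq_nonneg (S u v))).mp
    (h1 u (Finset.mem_univ u)) v (Finset.mem_univ v)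
  simpa using h2

private theorem T3_D2_nonneg {n : ℕ} (S : Matrix (Fin n) (Fin n) ℤ) : 0 ≤ D2 S :=
  Finset.sum_nonneg fun u _ => Finset.sum_nonneg fun v _ => sq_nonneg (S u v)

open scoped Classical in
/-- PROOF. If `D2 S = 0` then `S = 0`, the radius and the threshold are `0`: `thin_zero`, `2 ^ e ≥ 2 ^ (p n / q) / 2`. Otherwise
`thin` with `t = K √(D / n)`, `s = 1 / K²`: `D / (θ t)² = n / (θ K)²`, `3 D / t² = 3 n / K²`, the condition `hR` is `h3` times `K⁶ D³ / n²`; the first exponential is at most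
`exp (n p / (2 q))` (`h4`), divided by `2 ^ e ≥ 2 ^ (p n / q) / 2` it is at most `2 exp (- (log 2 - 1 / 2) n p / q)`. Second term: threshold `c₃ Q`
(`Real.sqrt`), `dl ≤ c₃ Q / 5`, `Q / t = n / K`, `D / t² = n / K²`, so the exponent is at most `- c₃ n / (10 K) + n / (32 K²) ≤ - c₃ n / (20 K)`. Then `small_sum`. -/
theorem thin_par (m K p q : ℕ) (hm : 0 < m) (hK : 0 < K) (hp : 0 < p) (hq : 0 < q) {θ h₀ : ℝ}
    (hθ : 0 < θ) (hh : 0 < h₀)
    (h3 : 4 * h₀ ^ 2 / (θ * K) ^ 2 + 4 * θ ^ 6 ≤ (c3 m / (2 * K)) ^ 2 / 64)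
    (h1 : 1 / (K : ℝ) ≤ c3 m / 100) (h2 : (K : ℝ) * (p / q) ≤ c3 m / 100)
    (h4 : 4 / (K : ℝ) ^ 2 + 1 / (θ * K) ^ 2 * Real.log (1 + 2 * K ^ 2 / h₀ ^ 2) ≤ p / q / 2) :
    ∃ δ : ℝ, 0 < δ ∧ δ < 1 ∧ ∃ n₀ : ℕ, ∀ n : ℕ, n₀ ≤ n → ∀ S : Matrix (Fin n) (Fin n) ℤ, Mat S →
      ∀ b : Fin n → ℤ, (∀ v, |b v| ≤ n) → ∀ Y : Finset (Fin n),
        (((Om Y).filter fun x => Kp (par m K p q hm hq) S b Y x).card : ℝ) ≤
          (2 : ℝ) ^ ((Y.card : ℝ) - δ * n) := by
  have hK' : (0 : ℝ) < K := by exact_mod_cast hK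
  have hp' : (0 : ℝ) < p := by exact_mod_cast hp
  have hq' : (0 : ℝ) < q := by exact_mod_cast hq
  have hc : 0 < c3 m := by unfold c3; positivity
  have hl1 : 0 < Real.log 2 - 1 / 2 := by
    have := Real.log_two_gt_d9
    linarith
  have ha : 0 < (Real.log 2 - 1 / 2) * (p / q) := by positivity
  have hb' : 0 < c3 m / (20 * K) := by positivity
  obtain ⟨δ, hδ0, hδ1, n₀, hn₀⟩ := small_sum ha hb'
  refine ⟨δ, hδ0, hδ1, n₀, fun n hn S hS b hb Y => ?_⟩
  have hsm := hn₀ n hn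
  have hY : (0 : ℝ) < 2 ^ Y.card := by positivity
  have hgoal : (2 : ℝ) ^ ((Y.card : ℝ) - δ * n) = 2 ^ Y.card * (2 : ℝ) ^ (-(δ * n)) := by
    rw [sub_eq_add_neg, Real.rpow_add (by norm_num : (0 : ℝ) < 2), Real.rpow_natCast]
  rw [hgoal]
  refine le_trans ?_ (mul_le_mul_of_nonneg_left hsm hY.le)
  have he := (T3_e (n := n) m K p q hm hq).2
  have hpow := T3_pow he
  have hn0 : (0 : ℝ) ≤ n := Nat.cast_nonneg n
  change (((Om Y).filter fun x => Keep S b ((par m K p q hm hq).R S)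
    ((par m K p q hm hq).e n) ((par m K p q hm hq).th S) Y x).card : ℝ) ≤ _
  rcases (T3_D2_nonneg S).eq_or_lt with hD | hD
  · -- the case `S = 0`
    have hS0 : S = 0 := T3_D2 hD.symm
    have hDr : (D2 S : ℝ) = 0 := by exact_mod_cast hD.symm
    have hR0 : 0 ≤ (par m K p q hm hq).R S := by
      rw [T3_R, hDr]
      simp
    have hth0 : 0 ≤ (par m K p q hm hq).th S := Real.sqrt_nonneg _
    generalize (par m K p q hm hq).R S = R at hR0 ⊢
    generalize (par m K p q hm hq).th S = τ at hth0 ⊢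
    subst hS0
    have h1 := thin_zero hb hR0 ((par m K p q hm hq).e n) hth0 Y
    refine h1.trans ?_
    have h2 : Real.exp (-(Real.log 2 * ((p : ℝ) / q * n))) ≤
        Real.exp (-((Real.log 2 - 1 / 2) * (p / q)) * n) := by
      apply Real.exp_le_exp.mpr
      have h3 : 0 ≤ (p : ℝ) / q * n := by positivity
      nlinarith
    calc (2 * (n : ℝ) + 1) * (2 * n ^ 2 + 1) * 2 ^ Y.card / 2 ^ (par m K p q hm hq).e n
        = (2 * (n : ℝ) + 1) * (2 * n ^ 2 + 1) * 2 ^ Y.card *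
            (1 / 2 ^ (par m K p q hm hq).e n) := by ring
      _ ≤ (2 * (n : ℝ) + 1) * (2 * n ^ 2 + 1) * 2 ^ Y.card *
            (2 * Real.exp (-((Real.log 2 - 1 / 2) * (p / q)) * n)) := by
          refine mul_le_mul_of_nonneg_left (hpow.trans ?_) (by positivity)
          linarith
      _ ≤ 2 ^ Y.card * (2 * (2 * n + 1) * (2 * n ^ 2 + 1) *
            Real.exp (-((Real.log 2 - 1 / 2) * (p / q)) * n) +
            2 * Real.exp (-(c3 m / (20 * K)) * n)) := by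
          have h3 : 0 ≤ 2 * Real.exp (-(c3 m / (20 * K)) * n) := by positivity
          nlinarith
  · -- the case `S ≠ 0`
    have hnpos : 0 < n := by
      rcases Nat.eq_zero_or_pos n with h | h
      · subst h
        simp [D2] at hD
      · exact h
    have hn' : (0 : ℝ) < n := by exact_mod_cast hnpos
    have hDr : (0 : ℝ) < (D2 S : ℝ) := by exact_mod_cast hD
    have hdl := dl_par hnpos m K p q hm hK hq h1 h2 S hD
    have hQ0 : 0 < Real.sqrt (D2 S * n) := Real.sqrt_pos.mpr (by positivity)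
    have hQ2 : Real.sqrt (D2 S * n) ^ 2 = D2 S * n := Real.sq_sqrt (by positivity)
    have ht0 : 0 < (K : ℝ) * Real.sqrt (D2 S / n) := by
      have : 0 < Real.sqrt ((D2 S : ℝ) / n) := Real.sqrt_pos.mpr (by positivity)
      positivity
    have ht2 : ((K : ℝ) * Real.sqrt (D2 S / n)) ^ 2 = K ^ 2 * (D2 S / n) := by
      rw [mul_pow, Real.sq_sqrt (by positivity)]
    have hR : 4 * h₀ ^ 2 * ((K : ℝ) * Real.sqrt (D2 S / n)) ^ 6 *
        (D2 S / (θ * ((K : ℝ) * Real.sqrt (D2 S / n))) ^ 2) +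
        4 * (θ * ((K : ℝ) * Real.sqrt (D2 S / n))) ^ 6 * n ≤ (par m K p q hm hq).R S := by
      rw [T3_R]
      have e6 : ((K : ℝ) * Real.sqrt (D2 S / n)) ^ 6 = (K ^ 2 * (D2 S / n)) ^ 3 := by
        rw [← ht2, ← pow_mul]
      rw [mul_pow θ _ 2, mul_pow θ _ 6, e6, ht2]
      have h5 : 4 * h₀ ^ 2 * ((K : ℝ) ^ 2 * (D2 S / n)) ^ 3 *
          (D2 S / (θ ^ 2 * (K ^ 2 * (D2 S / n)))) +
          4 * (θ ^ 6 * (K ^ 2 * (D2 S / n)) ^ 3) * n =
          (K ^ 6 * (D2 S : ℝ) ^ 3 / n ^ 2) * (4 * h₀ ^ 2 / (θ * K) ^ 2 + 4 * θ ^ 6) := by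
        field_simp
      rw [h5]
      calc (K ^ 6 * (D2 S : ℝ) ^ 3 / n ^ 2) * (4 * h₀ ^ 2 / (θ * K) ^ 2 + 4 * θ ^ 6)
          ≤ (K ^ 6 * (D2 S : ℝ) ^ 3 / n ^ 2) * ((c3 m / (2 * K)) ^ 2 / 64) :=
            mul_le_mul_of_nonneg_left h3 (by positivity)
        _ = c3 m ^ 2 * K ^ 4 / 256 * (D2 S : ℝ) ^ 3 / n ^ 2 := by
            field_simp
            ring
    have hs : (0 : ℝ) < 1 / (K : ℝ) ^ 2 := by positivity
    have hthin := thin hS hb ht0 hθ hh hs hR ((par m K p q hm hq).e n)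
      ((par m K p q hm hq).th S) Y
    refine hthin.trans ?_
    -- the first exponential
    have f1 : Real.exp (1 / (K : ℝ) ^ 2 * n +
        D2 S / (θ * ((K : ℝ) * Real.sqrt (D2 S / n))) ^ 2 *
          Real.log (1 + 2 / (1 / (K : ℝ) ^ 2 * h₀ ^ 2)) +
        3 * D2 S / ((K : ℝ) * Real.sqrt (D2 S / n)) ^ 2) ≤ Real.exp (p / q / 2 * n) := by
      apply Real.exp_le_exp.mpr
      rw [mul_pow θ _ 2, ht2]
      have g1 : (2 : ℝ) / (1 / (K : ℝ) ^ 2 * h₀ ^ 2) = 2 * K ^ 2 / h₀ ^ 2 := by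
        field_simp
      rw [g1]
      have g2 : (D2 S : ℝ) / (θ ^ 2 * (K ^ 2 * (D2 S / n))) = n * (1 / (θ * K) ^ 2) := by
        field_simp
      have g3 : 3 * (D2 S : ℝ) / (K ^ 2 * (D2 S / n)) = n * (3 / K ^ 2) := by
        field_simp
      rw [g2, g3]
      have g4 : 1 / (K : ℝ) ^ 2 * n + n * (1 / (θ * K) ^ 2) *
          Real.log (1 + 2 * K ^ 2 / h₀ ^ 2) + n * (3 / K ^ 2) =
          n * (4 / (K : ℝ) ^ 2 + 1 / (θ * K) ^ 2 * Real.log (1 + 2 * K ^ 2 / h₀ ^ 2)) := by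
        ring
      rw [g4]
      calc (n : ℝ) * (4 / (K : ℝ) ^ 2 + 1 / (θ * K) ^ 2 * Real.log (1 + 2 * K ^ 2 / h₀ ^ 2))
          ≤ n * (p / q / 2) := mul_le_mul_of_nonneg_left h4 hn0
        _ = p / q / 2 * n := by ring
    have f2 : Real.exp (p / q / 2 * n) * (1 / (2 : ℝ) ^ (par m K p q hm hq).e n) ≤
        2 * Real.exp (-((Real.log 2 - 1 / 2) * (p / q)) * n) := by
      calc Real.exp (p / q / 2 * n) * (1 / (2 : ℝ) ^ (par m K p q hm hq).e n)
          ≤ Real.exp (p / q / 2 * n) * (2 * Real.exp (-(Real.log 2 * ((p : ℝ) / q * n)))) :=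
            mul_le_mul_of_nonneg_left hpow (Real.exp_pos _).le
        _ = 2 * (Real.exp (p / q / 2 * n) * Real.exp (-(Real.log 2 * ((p : ℝ) / q * n)))) := by
            ring
        _ = 2 * Real.exp (-((Real.log 2 - 1 / 2) * (p / q)) * n) := by
            rw [← Real.exp_add]
            congr 2
            ring
    have f3 : Real.exp (-((par m K p q hm hq).th S -
        dl n (D2 S) (K * Real.sqrt (D2 S / n)) ((par m K p q hm hq).R S)
          ((par m K p q hm hq).e n)) / (8 * ((K : ℝ) * Real.sqrt (D2 S / n))) +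
        D2 S / (32 * ((K : ℝ) * Real.sqrt (D2 S / n)) ^ 2)) ≤
        Real.exp (-(c3 m / (20 * K)) * n) := by
      apply Real.exp_le_exp.mpr
      rw [T3_th m K p q hm hq S hDr.le, ht2]
      have g1 : (D2 S : ℝ) / (32 * (K ^ 2 * (D2 S / n))) = n / (32 * K) * (1 / K) := by
        field_simp
      have g2 : (n : ℝ) / (32 * K) * (1 / K) ≤ n / (32 * K) * (c3 m / 100) :=
        mul_le_mul_of_nonneg_left h1 (by positivity)
      have g3 : -(c3 m * Real.sqrt (D2 S * n) -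
          dl n (D2 S) (K * Real.sqrt (D2 S / n)) ((par m K p q hm hq).R S)
            ((par m K p q hm hq).e n)) / (8 * ((K : ℝ) * Real.sqrt (D2 S / n))) ≤
          -(c3 m * n / (10 * K)) := by
        rw [T3_sqrt hnpos hDr] at hdl ⊢
        rw [div_le_iff₀ (by positivity)]
        have g4 : -(c3 m * n / (10 * K)) * (8 * (K * (Real.sqrt (D2 S * n) / n))) =
            -(4 / 5 * (c3 m * Real.sqrt (D2 S * n))) := by
          field_simp
          ring
        rw [g4]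
        linarith
      rw [g1]
      have g5 : -(c3 m * n / (10 * K)) + n / (32 * K) * (c3 m / 100) ≤
          -(c3 m / (20 * K)) * n := by
        have g6 : (0 : ℝ) < c3 m * n / K := by positivity
        have g7 : -(c3 m * n / (10 * K)) + n / (32 * K) * (c3 m / 100) =
            -(c3 m * n / K) * (1 / 10 - 1 / 3200) := by
          field_simp
          ring
        have g8 : -(c3 m / (20 * K)) * n = -(c3 m * n / K) * (1 / 20) := by
          field_simp
        rw [g7, g8]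
        nlinarith
      linarith
    have hA0 : (0 : ℝ) ≤ (2 * n + 1) * (2 * n ^ 2 + 1) * 2 ^ Y.card := by positivity
    calc Real.exp (1 / (K : ℝ) ^ 2 * n +
          D2 S / (θ * ((K : ℝ) * Real.sqrt (D2 S / n))) ^ 2 *
            Real.log (1 + 2 / (1 / (K : ℝ) ^ 2 * h₀ ^ 2)) +
          3 * D2 S / ((K : ℝ) * Real.sqrt (D2 S / n)) ^ 2) *
          (2 * n + 1) * (2 * n ^ 2 + 1) * 2 ^ Y.card / 2 ^ (par m K p q hm hq).e n +
        2 * 2 ^ Y.card * Real.exp (-((par m K p q hm hq).th S -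
          dl n (D2 S) (K * Real.sqrt (D2 S / n)) ((par m K p q hm hq).R S)
            ((par m K p q hm hq).e n)) / (8 * ((K : ℝ) * Real.sqrt (D2 S / n))) +
          D2 S / (32 * ((K : ℝ) * Real.sqrt (D2 S / n)) ^ 2))
        ≤ Real.exp (p / q / 2 * n) *
          (2 * n + 1) * (2 * n ^ 2 + 1) * 2 ^ Y.card / 2 ^ (par m K p q hm hq).e n +
          2 * 2 ^ Y.card * Real.exp (-(c3 m / (20 * K)) * n) := by
          refine add_le_add ?_ (mul_le_mul_of_nonneg_left f3 (by positivity))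
          gcongr
      _ = (Real.exp (p / q / 2 * n) * (1 / (2 : ℝ) ^ (par m K p q hm hq).e n)) *
          ((2 * n + 1) * (2 * n ^ 2 + 1) * 2 ^ Y.card) +
          2 * 2 ^ Y.card * Real.exp (-(c3 m / (20 * K)) * n) := by
          ring
      _ ≤ (2 * Real.exp (-((Real.log 2 - 1 / 2) * (p / q)) * n)) *
          ((2 * n + 1) * (2 * n ^ 2 + 1) * 2 ^ Y.card) +
          2 * 2 ^ Y.card * Real.exp (-(c3 m / (20 * K)) * n) := by
          have := mul_le_mul_of_nonneg_right f2 hA0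
          linarith
      _ = 2 ^ Y.card * (2 * (2 * n + 1) * (2 * n ^ 2 + 1) *
            Real.exp (-((Real.log 2 - 1 / 2) * (p / q)) * n) +
            2 * Real.exp (-(c3 m / (20 * K)) * n)) := by
          ring

end Pool.Agent.MPa9445a.BE
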